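import Mathlib

/-!
# Products of Golod ideals need not be Golod

`S = k[x₀,x₁,x₂,x₃]`, `𝔪 = (x₀,x₁,x₂,x₃)`, `I₁ = 𝔪²`, `I₂ = 𝔪·(x₀⁴,x₁⁴,x₂⁴,x₃⁴) + ((x₀x₁x₂x₃)³)`.
Both `I₁` and `I₂` are Golod, both lie in `𝔪²`, and `I₁I₂` is not Golod.
-/

namespace Pool.Agent.H8Golod

open MvPolynomial

universe u

/-! ### Definitions -/

/-- The underlying module of the Koszul complex on `e` elements of `R`, i.e. of the exterior
algebra of `R^e`, in coordinates: `z A` is the coefficient of `z` at the basis element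
`e_A = e_{a₁} ∧ … ∧ e_{a_p}`, where `A = {a₁ < … < a_p}`.  Its degree is `p = |A|`. -/
abbrev Kos (R : Type u) (e : ℕ) : Type u := Finset (Fin e) → R

/-- The number of inversions: pairs `(x, y)`, `x ∈ A`, `y ∈ B`, with `y < x`. -/
def inv {e : ℕ} (A B : Finset (Fin e)) : ℕ := ∑ x ∈ A, (B.filter (· < x)).card

/-- The exterior product, `e_A ∧ e_B = (-1)^(inv A B) e_{A ∪ B}` for disjoint `A`, `B` and
`e_A ∧ e_B = 0` otherwise. -/
def kmul {R : Type u} [CommRing R] {e : ℕ} (y z : Kos R e) : Kos R e := fun C =>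
  ∑ A ∈ C.powerset, (-1 : R) ^ inv A (C \ A) * (y A * z (C \ A))

/-- The differential of the Koszul complex of the family `a` of elements of `R`,
`∂ e_A = ∑_{c ∈ A} (-1)^#{b ∈ A : b < c} a_c e_{A \ {c}}`. -/
def kd {R : Type u} [CommRing R] {e : ℕ} (a : Fin e → R) (z : Kos R e) : Kos R e := fun B =>
  ∑ c ∈ Bᶜ, (-1 : R) ^ (B.filter (· < c)).card * (a c * z (insert c B))

/-- `z` is homogeneous of degree `n` in the Koszul complex. -/
def IsDeg {R : Type u} [CommRing R] {e : ℕ} (n : ℕ) (z : Kos R e) : Prop :=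
  ∀ A : Finset (Fin e), A.card ≠ n → z A = 0

/-- `z` is a boundary of the Koszul complex of `a`. -/
def IsBdry {R : Type u} [CommRing R] {e : ℕ} (a : Fin e → R) (z : Kos R e) : Prop :=
  ∃ t : Kos R e, kd a t = z

/-- A trivial Massey operation on the Koszul complex `K` of the family `a` (the condition of Golod
that all Massey operations vanish).  It consists of a family `μ [x]`, `x ∈ Λ`, of homogeneous
cycles of positive degrees `deg x` whose classes form a `k`-basis of `H_{≥1}(K)` (field `basis`: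
every cycle without degree-zero part is, modulo boundaries, a unique `k`-combination of the
`μ [x]`), together with elements `μ [x₁,…,x_p]` of degree `deg x₁ + … + deg x_p + p - 1` with
`∂ μ(x₁…x_p) = ∑_{j=1}^{p-1} (-1)^(|μ(x₁…x_j)|+1) μ(x₁…x_j) μ(x_{j+1}…x_p)`. -/
structure TrivialMassey (k : Type u) [Field k] {R : Type u} [CommRing R] [Algebra k R]
    {e : ℕ} (a : Fin e → R) where
  Λ : Type
  deg : Λ → ℕ
  deg_pos : ∀ x, 0 < deg x
  μ : List Λ → Kos R e
  μ_deg : ∀ l : List Λ, l ≠ [] → IsDeg ((l.map deg).sum + l.length - 1) (μ l)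
  cycle : ∀ x, kd a (μ [x]) = 0
  basis : ∀ z : Kos R e, z ∅ = 0 → kd a z = 0 →
    ∃! c : Λ →₀ k, IsBdry a (z - c.sum (fun x r => algebraMap k R r • μ [x]))
  massey : ∀ l : List Λ, 2 ≤ l.length →
    kd a (μ l) = ∑ j ∈ Finset.Ico 1 l.length,
      ((-1 : R) ^ (((l.take j).map deg).sum + j)) • kmul (μ (l.take j)) (μ (l.drop j))

/-- `I` is homogeneous for the grading `deg X_i = w i`. -/
def IsHomog {k : Type u} [Field k] {n : ℕ} (w : Fin n → ℕ)
    (I : Ideal (MvPolynomial (Fin n) k)) : Prop :=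
  ∀ p ∈ I, ∀ d : ℕ, weightedHomogeneousComponent w d p ∈ I

/-- The family `a` of elements of `S/I` is a minimal generating family of the maximal ideal
`𝔪_R` of `R = S/I`: it generates the image of `𝔪 = (X_i)`, and no `a i` lies in the ideal
generated by the other ones. -/
def IsMinGen {k : Type u} [Field k] {n e : ℕ} (I : Ideal (MvPolynomial (Fin n) k))
    (a : Fin e → MvPolynomial (Fin n) k ⧸ I) : Prop :=
  Ideal.span (Set.range a) = (idealOfVars (Fin n) k).map (Ideal.Quotient.mk I) ∧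
    ∀ i, a i ∉ Ideal.span (a '' {i}ᶜ)

/-- `I` is a Golod ideal: for some minimal generating family of the maximal ideal `𝔪_R` of
`R = S/I` consisting of classes of homogeneous elements (`deg X_i = w i`) the Koszul complex has a
trivial Massey operation. -/
def IsGolod {k : Type u} [Field k] {n : ℕ} (w : Fin n → ℕ)
    (I : Ideal (MvPolynomial (Fin n) k)) : Prop :=
  ∃ (e : ℕ) (b : Fin e → MvPolynomial (Fin n) k) (a : Fin e → MvPolynomial (Fin n) k ⧸ I),
    (∀ i, ∃ d : ℕ, IsWeightedHomogeneous w (b i) d) ∧ (∀ i, a i = Ideal.Quotient.mk I (b i)) ∧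
    IsMinGen I a ∧ Nonempty (TrivialMassey k a)

/-- The ideal `I₁ = 𝔪²` of `k[x₀,x₁,x₂,x₃]`, `𝔪 = (x₀,x₁,x₂,x₃)`. -/
noncomputable def I1 (k : Type u) [Field k] : Ideal (MvPolynomial (Fin 4) k) :=
  idealOfVars (Fin 4) k ^ 2

/-- The ideal `I₂ = 𝔪·(x₀⁴,x₁⁴,x₂⁴,x₃⁴) + ((x₀x₁x₂x₃)³)` of `k[x₀,x₁,x₂,x₃]`. -/
noncomputable def I2 (k : Type u) [Field k] : Ideal (MvPolynomial (Fin 4) k) :=
  Ideal.span (Set.range fun p : Fin 4 × Fin 4 => (X p.1 * X p.2 ^ 4 : MvPolynomial (Fin 4) k)) ⊔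
    Ideal.span {((X 0 * X 1 * X 2 * X 3) ^ 3 : MvPolynomial (Fin 4) k)}

end Pool.Agent.H8Golod
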