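import Pool.Agent.H8Golod.Defs

namespace Pool.Agent.H8Golod

open CliffordAlgebra ExteriorAlgebra Module MvPolynomial

universe u

/-! ### The Koszul algebra as an exterior algebra -/

/-- The exterior algebra of `R^e`. -/
abbrev KosI (R : Type u) [CommRing R] (e : ℕ) : Type u := ExteriorAlgebra R (Fin e → R)

/-- The Koszul differential on the exterior algebra: contraction. -/
noncomputable def kdI {R : Type u} [CommRing R] {e : ℕ} (a : Fin e → R) :
    KosI R e →ₗ[R] KosI R e :=
  CliffordAlgebra.contractLeft (Fintype.linearCombination R a)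

section
variable {R : Type u} [CommRing R] {e : ℕ} (a : Fin e → R)

theorem kd_iota_mul (v : Fin e → R) (x : KosI R e) :
    kdI a (ExteriorAlgebra.ι R v * x) = (∑ i, v i * a i) • x - ExteriorAlgebra.ι R v * kdI a x := by
  rw [kdI, ExteriorAlgebra.ι, contractLeft_ι_mul, Fintype.linearCombination_apply]
  simp only [smul_eq_mul]

theorem kd_one : kdI a 1 = 0 := by
  rw [kdI, contractLeft_one]

theorem kd_algebraMap (r : R) : kdI a (algebraMap R (KosI R e) r) = 0 := by
  rw [kdI, contractLeft_algebraMap]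

theorem kd_kd (x : KosI R e) : kdI a (kdI a x) = 0 := by
  rw [kdI, contractLeft_contractLeft]

/-- Leibniz rule. -/
theorem kd_mul (x y : KosI R e) :
    kdI a (x * y) = kdI a x * y + involute x * kdI a y := by
  induction x using CliffordAlgebra.left_induction with
  | algebraMap r =>
    rw [kd_algebraMap, zero_mul, zero_add, AlgHom.commutes]
    rw [← Algebra.smul_def, ← Algebra.smul_def, map_smul]
  | add x₁ x₂ h₁ h₂ =>
    rw [add_mul, map_add, h₁, h₂, map_add, map_add, add_mul, add_mul]; abel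
  | ι_mul x m h =>
    have h1 := kd_iota_mul a m (x * y)
    have h2 := kd_iota_mul a m x
    rw [ExteriorAlgebra.ι] at h1 h2
    rw [mul_assoc, h1, h2, h, map_mul, involute_ι]
    simp only [sub_mul, smul_mul_assoc, mul_assoc, mul_add, neg_mul]
    abel

theorem kd_involute (x : KosI R e) : kdI a (involute x) = - involute (kdI a x) := by
  induction x using CliffordAlgebra.left_induction with
  | algebraMap r =>
    rw [AlgHom.commutes, kd_algebraMap, map_zero, neg_zero]
  | add x₁ x₂ h₁ h₂ =>
    rw [map_add, map_add, h₁, h₂, map_add, map_add]; abel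
  | ι_mul x m h =>
    have h1 := kd_iota_mul a m (involute x)
    have h2 := kd_iota_mul a m x
    rw [ExteriorAlgebra.ι] at h1 h2
    rw [map_mul, involute_ι, neg_mul, map_neg, h1, h2, h]
    simp only [map_sub, map_smul, map_mul, involute_ι, neg_mul, mul_neg]

theorem kd_mul_of_cycle_right (x y : KosI R e) (hy : kdI a y = 0) :
    kdI a (x * y) = kdI a x * y := by
  rw [kd_mul, hy, mul_zero, add_zero]

theorem cycle_mul_kd (x y : KosI R e) (hx : kdI a x = 0) :
    kdI a (involute x * y) = x * kdI a y := by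
  rw [kd_mul, kd_involute, hx, map_zero, neg_zero, zero_mul, zero_add]
  congr 1
  exact involute_involute x

/-- naturality -/
theorem kd_map {e' : ℕ} (a' : Fin e' → R) (f : (Fin e → R) →ₗ[R] (Fin e' → R))
    (hf : ∀ v, ∑ i, (f v) i * a' i = ∑ i, v i * a i) (x : KosI R e) :
    kdI a' (ExteriorAlgebra.map f x) = ExteriorAlgebra.map f (kdI a x) := by
  induction x using CliffordAlgebra.left_induction with
  | algebraMap r =>
    rw [kd_algebraMap, AlgHom.commutes, kd_algebraMap, map_zero]
  | add x₁ x₂ h₁ h₂ => rw [map_add, map_add, h₁, h₂, map_add, map_add]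
  | ι_mul x m h =>
    have h2 := kd_iota_mul a m x
    have h1 := kd_iota_mul a' (f m) (ExteriorAlgebra.map f x)
    have h3 : ExteriorAlgebra.map f ((CliffordAlgebra.ι (0 : QuadraticForm R (Fin e → R))) m)
        = ExteriorAlgebra.ι R (f m) := ExteriorAlgebra.map_apply_ι f m
    rw [ExteriorAlgebra.ι] at h2
    rw [map_mul, h3, h1, h2, h, hf, map_sub, map_smul, map_mul, h3]

end

section
variable (R : Type u) [CommRing R] (e : ℕ)

/-- The standard basis of the Koszul algebra. -/
noncomputable def EB : Basis (Finset (Fin e)) R (KosI R e) := (Pi.basisFun R (Fin e)).ExteriorAlgebra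

theorem EB_empty : EB R e ∅ = 1 := by
  rw [EB, ExteriorAlgebra.basis_apply_ofCard (n := 0) _ (by simp)]
  simp [ExteriorAlgebra.ιMulti_family, ExteriorAlgebra.ιMulti_zero_apply]

theorem EB_insert (a : Fin e) (A : Finset (Fin e)) (h : ∀ c ∈ A, a < c) :
    EB R e (insert a A) = ExteriorAlgebra.ι R (Pi.single a 1) * EB R e A := by
  have ha : a ∉ A := fun h' => lt_irrefl _ (h a h')
  have hc : (insert a A).card = A.card + 1 := Finset.card_insert_of_notMem ha
  rw [EB, ExteriorAlgebra.basis_apply_ofCard (n := A.card + 1) _ hc,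
    ExteriorAlgebra.basis_apply_ofCard (n := A.card) _ rfl]
  have key : (Fin.cons a (A.orderEmbOfFin rfl) : Fin (A.card + 1) → Fin e)
      = (insert a A).orderEmbOfFin hc := by
    apply Finset.orderEmbOfFin_unique
    · intro x
      refine Fin.cases ?_ (fun i => ?_) x
      · simp
      · simp only [Fin.cons_succ]
        exact Finset.mem_insert_of_mem (Finset.orderEmbOfFin_mem A rfl i)
    · intro i j hij
      induction i using Fin.cases with
      | zero =>
        induction j using Fin.cases with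
        | zero => exact absurd hij (lt_irrefl _)
        | succ j =>
          simp only [Fin.cons_zero, Fin.cons_succ]
          exact h _ (Finset.orderEmbOfFin_mem A rfl j)
      | succ i =>
        induction j using Fin.cases with
        | zero => exact absurd hij (by simp)
        | succ j =>
          simp only [Fin.cons_succ]
          exact (A.orderEmbOfFin rfl).strictMono (Fin.succ_lt_succ_iff.mp hij)
  unfold ExteriorAlgebra.ιMulti_family
  rw [ExteriorAlgebra.ιMulti_succ_apply]
  have hv : ∀ i, (Set.powersetCard.ofFinEmbEquiv.symm (Set.powersetCard.ofCard hc)) i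
      = (Fin.cons a (A.orderEmbOfFin rfl) : Fin (A.card + 1) → Fin e) i := by
    intro i
    rw [key]; rfl
  congr 2
  · rw [Function.comp_apply, hv 0]
    simp
  · funext i
    simp only [Matrix.vecTail, Function.comp_apply]
    rw [hv i.succ]
    simp only [Fin.cons_succ]
    rfl

/-- sign -/
def eps (a : Fin e) (A : Finset (Fin e)) : ℤ := (-1) ^ (A.filter (· < a)).card

end

section
variable {R : Type u} [CommRing R] {e : ℕ} (a : Fin e → R)

theorem kd_EB (A : Finset (Fin e)) :
    kdI a (EB R e A) = ∑ c ∈ A, ((eps e c A : R) * a c) • EB R e (A.erase c) := by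
  induction A using Finset.induction_on_min with
  | empty => rw [EB_empty, kd_one, Finset.sum_empty]
  | insert c A hlt ih =>
    have hc : c ∉ A := fun h' => lt_irrefl _ (hlt c h')
    rw [EB_insert R e c A hlt, kd_iota_mul, ih, Finset.sum_insert hc]
    have h1 : (∑ i, (Pi.single c (1 : R) : Fin e → R) i * a i) = a c := by
      rw [Finset.sum_eq_single c]
      · simp
      · intro b _ hb; simp [hb]
      · simp
    have h2 : eps e c (insert c A) = 1 := by
      unfold eps
      rw [Finset.filter_eq_empty_iff.mpr]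
      · simp
      · intro x hx
        rcases Finset.mem_insert.mp hx with rfl | hx
        · exact lt_irrefl _
        · exact not_lt.mpr (hlt x hx).le
    rw [h1, h2, Finset.erase_insert hc, sub_eq_add_neg, Int.cast_one, one_mul]
    congr 1
    rw [Finset.mul_sum, ← Finset.sum_neg_distrib]
    refine Finset.sum_congr rfl fun b hb => ?_
    have hbc : c < b := hlt b hb
    have h3 : (insert c A).erase b = insert c (A.erase b) :=
      Finset.erase_insert_of_ne hbc.ne
    have h4 : EB R e (insert c (A.erase b)) =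
        ExteriorAlgebra.ι R (Pi.single c 1) * EB R e (A.erase b) :=
      EB_insert R e c (A.erase b) fun x hx => hlt x (Finset.mem_of_mem_erase hx)
    have h5 : eps e b (insert c A) = - eps e b A := by
      unfold eps
      rw [Finset.filter_insert, if_pos hbc, Finset.card_insert_of_notMem, pow_succ]
      · ring
      · simp [hc]
    rw [h3, h4, h5, mul_smul_comm, Int.cast_neg, neg_mul, neg_smul]

theorem eps_mul_self (c : Fin e) (A : Finset (Fin e)) : eps e c A * eps e c A = 1 := by
  unfold eps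
  rw [← pow_add, ← two_mul, pow_mul]; simp

/-- the sign relation -/
theorem eps_rel (a b : Fin e) (A : Finset (Fin e)) (ha : a ∈ A) (hb : b ∉ A) :
    eps e b (insert b A) * eps e a (insert b A) =
      - (eps e a A * eps e b (insert b (A.erase a))) := by
  have hab : a ≠ b := fun h => hb (h ▸ ha)
  have h1 : eps e b (insert b A) = eps e b A := by
    unfold eps; rw [Finset.filter_insert, if_neg (lt_irrefl _)]
  have h2 : eps e b (insert b (A.erase a)) = eps e b (A.erase a) := by
    unfold eps; rw [Finset.filter_insert, if_neg (lt_irrefl _)]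
  rw [h1, h2]
  rcases lt_or_gt_of_ne hab with h | h
  · have h3 : eps e a (insert b A) = eps e a A := by
      unfold eps; rw [Finset.filter_insert, if_neg (not_lt.mpr h.le)]
    have h4 : eps e b A = - eps e b (A.erase a) := by
      unfold eps
      rw [Finset.filter_erase]
      have : a ∈ A.filter (· < b) := by simp [ha, h]
      have hc := Finset.card_erase_add_one this
      rw [← hc, pow_succ]; ring
    rw [h3, h4]; ring
  · have h3 : eps e a (insert b A) = - eps e a A := by
      unfold eps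
      rw [Finset.filter_insert, if_pos h, Finset.card_insert_of_notMem, pow_succ]
      · ring
      · simp [hb]
    have h4 : eps e b (A.erase a) = eps e b A := by
      unfold eps
      rw [Finset.filter_erase, Finset.erase_eq_of_notMem]
      simp [h.le]
    rw [h3, h4]; ring

/-- coordinates of the differential -/
theorem kd_coord (z : KosI R e) (B : Finset (Fin e)) :
    (EB R e).repr (kdI a z) B =
      ∑ c, if c ∈ B then 0 else (eps e c (insert c B) : R) * a c * (EB R e).repr z (insert c B) := by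
  conv_lhs => rw [← (EB R e).sum_repr z]
  rw [map_sum, map_sum, Finsupp.finsetSum_apply]
  simp only [map_smul, kd_EB, map_sum, Finsupp.smul_apply, Finsupp.finsetSum_apply,
    Basis.repr_self, Finsupp.single_apply, smul_eq_mul, Finset.mul_sum]
  have : ∀ A : Finset (Fin e), (∑ x ∈ A, ((EB R e).repr z) A *
      ((eps e x A : R) * a x * if A.erase x = B then 1 else 0)) =
      ∑ x, if A = insert x B ∧ x ∉ B then
        (eps e x (insert x B) : R) * a x * (EB R e).repr z (insert x B) else 0 := by
    intro A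
    rw [← Finset.sum_filter_add_sum_filter_not Finset.univ (fun x => x ∈ A)]
    have hz : (∑ x ∈ Finset.univ.filter (fun x => ¬ x ∈ A), if A = insert x B ∧ x ∉ B then
        (eps e x (insert x B) : R) * a x * (EB R e).repr z (insert x B) else 0) = 0 := by
      refine Finset.sum_eq_zero fun x hx => ?_
      rw [if_neg]
      rintro ⟨rfl, _⟩
      simp at hx
    rw [hz, add_zero, Finset.filter_mem_eq_inter, Finset.univ_inter]
    refine Finset.sum_congr rfl fun x hx => ?_
    by_cases h : A.erase x = B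
    · subst h
      rw [if_pos rfl, if_pos ⟨(Finset.insert_erase hx).symm, Finset.notMem_erase x A⟩,
        Finset.insert_erase hx]
      ring
    · rw [if_neg h, if_neg]
      · ring
      · rintro ⟨rfl, h2⟩
        exact h (Finset.erase_insert h2)
  simp_rw [this]
  rw [Finset.sum_comm]
  refine Finset.sum_congr rfl fun c _ => ?_
  by_cases hc : c ∈ B
  · rw [if_pos hc]
    refine Finset.sum_eq_zero fun A _ => ?_
    rw [if_neg]
    rintro ⟨_, h⟩; exact h hc
  · rw [if_neg hc, Finset.sum_eq_single (insert c B)]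
    · rw [if_pos ⟨rfl, hc⟩]
    · intro A _ hA
      rw [if_neg]
      rintro ⟨h, _⟩; exact hA h
    · intro h; exact absurd (Finset.mem_univ _) h

theorem algebraMapInv_EB (A : Finset (Fin e)) (hA : A ≠ ∅) :
    ExteriorAlgebra.algebraMapInv (EB R e A) = 0 := by
  induction A using Finset.induction_on_min with
  | empty => exact absurd rfl hA
  | insert c A hlt ih =>
    rw [EB_insert R e c A hlt, map_mul]
    have : ExteriorAlgebra.algebraMapInv (ExteriorAlgebra.ι R (Pi.single c (1 : R) : Fin e → R)) = 0 := by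
      rw [ExteriorAlgebra.algebraMapInv, ExteriorAlgebra.lift_ι_apply]; rfl
    rw [this, zero_mul]

theorem coord_empty (z : KosI R e) : (EB R e).repr z ∅ = ExteriorAlgebra.algebraMapInv z := by
  conv_rhs => rw [← (EB R e).sum_repr z]
  rw [map_sum, Finset.sum_eq_single ∅]
  · rw [map_smul, EB_empty, map_one, smul_eq_mul, mul_one]
  · intro A _ hA
    rw [map_smul, algebraMapInv_EB A hA, smul_zero]
  · intro h; exact absurd (Finset.mem_univ _) h

theorem EB_mem (A : Finset (Fin e)) : EB R e A ∈ ⋀[R]^A.card (Fin e → R) := by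
  rw [EB, ExteriorAlgebra.basis_apply_ofCard (n := A.card) _ rfl]
  exact ExteriorAlgebra.ιMulti_range R A.card ⟨_, rfl⟩

end

section
variable {R : Type u} [CommRing R] {e : ℕ}

theorem iota_swap (v w : Fin e → R) (z : KosI R e) :
    ExteriorAlgebra.ι R v * (ExteriorAlgebra.ι R w * z) =
      - (ExteriorAlgebra.ι R w * (ExteriorAlgebra.ι R v * z)) := by
  rw [← mul_assoc, ← mul_assoc, ← neg_mul]
  congr 1
  exact eq_neg_of_add_eq_zero_left (ExteriorAlgebra.ι_add_mul_swap v w)

theorem iota_mul_EB (c : Fin e) (C : Finset (Fin e)) :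
    ExteriorAlgebra.ι R (Pi.single c 1) * EB R e C =
      if c ∈ C then 0 else ((-1 : R) ^ (C.filter (· < c)).card) • EB R e (insert c C) := by
  induction C using Finset.induction_on_min with
  | empty =>
    rw [if_neg (by simp), EB_insert R e c ∅ (by simp)]; simp
  | insert m C hlt ih =>
    have hm : m ∉ C := fun h' => lt_irrefl _ (hlt m h')
    rw [EB_insert R e m C hlt]
    rcases lt_trichotomy c m with h | h | h
    · rw [if_neg, ← EB_insert R e m C hlt, EB_insert R e c (insert m C), Finset.filter_eq_empty_iff.mpr]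
      · simp
      · intro x hx
        rcases Finset.mem_insert.mp hx with rfl | hx
        · exact not_lt.mpr h.le
        · exact not_lt.mpr (h.le.trans (hlt x hx).le)
      · intro x hx
        rcases Finset.mem_insert.mp hx with rfl | hx
        · exact h
        · exact h.trans (hlt x hx)
      · intro hx
        rcases Finset.mem_insert.mp hx with rfl | hx
        · exact lt_irrefl _ h
        · exact lt_irrefl _ (h.trans (hlt c hx))
    · subst h
      rw [if_pos (Finset.mem_insert_self _ _), ← mul_assoc, ExteriorAlgebra.ι_sq_zero, zero_mul]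
    · rw [iota_swap, ih]
      by_cases hc : c ∈ C
      · rw [if_pos hc, if_pos (Finset.mem_insert_of_mem hc), mul_zero, neg_zero]
      · rw [if_neg hc, if_neg (by
          intro hx
          rcases Finset.mem_insert.mp hx with h' | hx
          · exact h.ne' h'
          · exact hc hx), mul_smul_comm, ← EB_insert R e m (insert c C) (by
            intro x hx
            rcases Finset.mem_insert.mp hx with rfl | hx
            · exact h
            · exact hlt x hx), Finset.insert_comm m c C, Finset.filter_insert, if_pos h,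
          Finset.card_insert_of_notMem (by simp [hm]), pow_succ]
        simp

theorem EB_mul (A B : Finset (Fin e)) :
    EB R e A * EB R e B =
      if Disjoint A B then ((-1 : R) ^ inv A B) • EB R e (A ∪ B) else 0 := by
  induction A using Finset.induction_on_min with
  | empty => rw [if_pos (Finset.disjoint_empty_left B), EB_empty, one_mul]; simp [inv]
  | insert a A hlt ih =>
    have ha : a ∉ A := fun h' => lt_irrefl _ (hlt a h')
    rw [EB_insert R e a A hlt, mul_assoc, ih]
    by_cases hd : Disjoint A B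
    · rw [if_pos hd, mul_smul_comm, iota_mul_EB]
      by_cases haB : a ∈ B
      · rw [if_pos (Finset.mem_union_right _ haB), smul_zero, if_neg]
        intro h
        exact (Finset.disjoint_left.mp h (Finset.mem_insert_self a A)) haB
      · rw [if_neg (by simp [ha, haB]), if_pos (Finset.disjoint_insert_left.mpr ⟨haB, hd⟩),
          smul_smul, ← pow_add, Finset.insert_union]
        congr 2
        have h1 : ((A ∪ B).filter (· < a)) = B.filter (· < a) := by
          rw [Finset.filter_union, Finset.filter_eq_empty_iff.mpr, Finset.empty_union]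
          intro x hx; exact not_lt.mpr (hlt x hx).le
        rw [h1]
        unfold inv
        rw [Finset.sum_insert ha, add_comm]
    · rw [if_neg hd, mul_zero, if_neg]
      intro h
      exact hd (Finset.disjoint_insert_left.mp h).2

theorem repr_kd (a : Fin e → R) (z : KosI R e) (B : Finset (Fin e)) :
    (EB R e).repr (kdI a z) B = kd a (fun A => (EB R e).repr z A) B := by
  rw [kd_coord, kd, ← Finset.sum_filter_add_sum_filter_not Finset.univ (fun x => x ∈ B),
    Finset.sum_eq_zero, zero_add]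
  · have : (Finset.univ.filter fun x => ¬ x ∈ B) = Bᶜ := by ext x; simp
    rw [this]
    refine Finset.sum_congr rfl fun c hc => ?_
    rw [Finset.mem_compl] at hc
    rw [if_neg hc, eps, Finset.filter_insert, if_neg (lt_irrefl _), mul_assoc]
    push_cast
    rfl
  · intro x hx
    rw [if_pos (Finset.mem_filter.mp hx).2]

theorem repr_mul (y z : KosI R e) (C : Finset (Fin e)) :
    (EB R e).repr (y * z) C =
      kmul (fun A => (EB R e).repr y A) (fun A => (EB R e).repr z A) C := by
  conv_lhs => rw [← (EB R e).sum_repr y, ← (EB R e).sum_repr z]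
  rw [Finset.sum_mul, map_sum, Finsupp.finsetSum_apply, kmul,
    ← Finset.sum_filter_add_sum_filter_not Finset.univ (fun x => x ∈ C.powerset)]
  have h0 : (∑ A ∈ Finset.univ.filter (fun x => ¬ x ∈ C.powerset),
      (EB R e).repr ((EB R e).repr y A • EB R e A *
        ∑ B, (EB R e).repr z B • EB R e B) C) = 0 := by
    refine Finset.sum_eq_zero fun A hA => ?_
    have hAC : ¬ A ⊆ C := by simpa using (Finset.mem_filter.mp hA).2
    rw [Finset.mul_sum, map_sum, Finsupp.finsetSum_apply]
    refine Finset.sum_eq_zero fun B _ => ?_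
    rw [smul_mul_smul_comm, EB_mul]
    split_ifs with hd
    · rw [map_smul, map_smul, Basis.repr_self, Finsupp.smul_apply, Finsupp.smul_apply,
        Finsupp.single_apply, if_neg, smul_zero, smul_zero]
      rintro rfl
      exact hAC Finset.subset_union_left
    · simp
  rw [h0, add_zero, Finset.filter_mem_eq_inter, Finset.univ_inter]
  refine Finset.sum_congr rfl fun A hA => ?_
  rw [Finset.mem_powerset] at hA
  rw [Finset.mul_sum, map_sum, Finsupp.finsetSum_apply, Finset.sum_eq_single (C \ A)]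
  · rw [smul_mul_smul_comm, EB_mul, if_pos Finset.disjoint_sdiff, map_smul, map_smul,
      Basis.repr_self, Finset.union_sdiff_of_subset hA, Finsupp.smul_apply, Finsupp.smul_apply,
      Finsupp.single_eq_same, smul_eq_mul, smul_eq_mul, mul_one, mul_comm]
  · intro B _ hB
    rw [smul_mul_smul_comm, EB_mul]
    split_ifs with hd
    · rw [map_smul, map_smul, Basis.repr_self, Finsupp.smul_apply, Finsupp.smul_apply,
        Finsupp.single_apply, if_neg, smul_zero, smul_zero]
      rintro rfl
      apply hB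
      rw [Finset.union_sdiff_cancel_left hd]
    · simp
  · intro h; exact absurd (Finset.mem_univ _) h

end

/-! ### Comparison of the two descriptions -/

section
variable {k : Type u} [Field k] {R : Type u} [CommRing R] [Algebra k R] {e : ℕ} {a : Fin e → R}

/-- coordinates -/
noncomputable def coL (R : Type u) [CommRing R] (e : ℕ) : KosI R e ≃ₗ[R] Kos R e :=
  (EB R e).equivFun

theorem coL_apply (z : KosI R e) : coL R e z = fun A => (EB R e).repr z A := by
  rw [coL, Basis.equivFun_apply]

theorem coL_kd (z : KosI R e) : coL R e (kdI a z) = kd a (coL R e z) := by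
  rw [coL_apply, coL_apply]; funext B; exact repr_kd a z B

theorem coL_mul (y z : KosI R e) : coL R e (y * z) = kmul (coL R e y) (coL R e z) := by
  rw [coL_apply, coL_apply, coL_apply]; funext B; exact repr_mul y z B

theorem coL_empty (z : KosI R e) : coL R e z ∅ = ExteriorAlgebra.algebraMapInv z := by
  rw [coL_apply]; exact coord_empty z

theorem isBdry_coL (z : KosI R e) : IsBdry a (coL R e z) ↔ z ∈ LinearMap.range (kdI a) := by
  constructor
  · rintro ⟨t, ht⟩
    refine ⟨(coL R e).symm t, ?_⟩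
    apply (coL R e).injective
    rw [coL_kd, LinearEquiv.apply_symm_apply, ht]
  · rintro ⟨t, rfl⟩
    exact ⟨coL R e t, (coL_kd t).symm⟩

theorem isDeg_coL (r : R) (A : Finset (Fin e)) : IsDeg A.card (coL R e (r • EB R e A)) := by
  intro B hB
  rw [map_smul, Pi.smul_apply, coL_apply]
  simp only [Basis.repr_self]
  rw [Finsupp.single_apply, if_neg, smul_zero]
  rintro rfl; exact hB rfl

theorem TrivialMassey.mul_mem (T : TrivialMassey k a) (x y : T.Λ) :
    (coL R e).symm (T.μ [x]) * (coL R e).symm (T.μ [y]) ∈ LinearMap.range (kdI a) := by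
  have h := T.massey [x, y] (by simp)
  simp only [List.length_cons, List.length_nil, zero_add, Nat.reduceAdd] at h
  rw [show Finset.Ico 1 2 = {1} from rfl, Finset.sum_singleton] at h
  simp only [List.take_succ_cons, List.take_zero, List.drop_succ_cons, List.drop_zero] at h
  set n := (List.map T.deg [x]).sum + 1
  have h2 : (coL R e).symm (T.μ [x]) * (coL R e).symm (T.μ [y]) =
      ((-1 : R) ^ n) • kdI a ((coL R e).symm (T.μ [x, y])) := by
    apply (coL R e).injective
    rw [map_smul, coL_kd, coL_mul, LinearEquiv.apply_symm_apply, LinearEquiv.apply_symm_apply,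
      LinearEquiv.apply_symm_apply, h, smul_smul, ← mul_pow]
    simp
  rw [h2]
  exact Submodule.smul_mem _ _ ⟨_, rfl⟩

theorem TrivialMassey.decomp (T : TrivialMassey k a) (z : KosI R e)
    (h0 : ExteriorAlgebra.algebraMapInv z = 0) (h1 : kdI a z = 0) :
    ∃ (c : T.Λ →₀ k) (u : KosI R e), kdI a u =
      z - c.sum (fun x r => algebraMap k R r • (coL R e).symm (T.μ [x])) := by
  obtain ⟨c, hc, -⟩ := T.basis (coL R e z) (by rw [coL_empty, h0]) (by rw [← coL_kd, h1, map_zero])
  refine ⟨c, ?_⟩
  have h2 : coL R e z - c.sum (fun x r => algebraMap k R r • T.μ [x]) =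
      coL R e (z - c.sum (fun x r => algebraMap k R r • (coL R e).symm (T.μ [x]))) := by
    rw [map_sub, Finsupp.sum, Finsupp.sum, map_sum]
    congr 1
    refine Finset.sum_congr rfl fun x _ => ?_
    rw [map_smul, LinearEquiv.apply_symm_apply]
  rw [h2, isBdry_coL] at hc
  exact hc

theorem TrivialMassey.product (T : TrivialMassey k a) (z z' : KosI R e)
    (h0 : ExteriorAlgebra.algebraMapInv z = 0) (h1 : kdI a z = 0)
    (h0' : ExteriorAlgebra.algebraMapInv z' = 0) (h1' : kdI a z' = 0) :
    z * z' ∈ LinearMap.range (kdI a) := by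
  obtain ⟨c, u, hu⟩ := T.decomp z h0 h1
  obtain ⟨c', u', hu'⟩ := T.decomp z' h0' h1'
  set s := c.sum (fun x r => algebraMap k R r • (coL R e).symm (T.μ [x])) with hs
  set s' := c'.sum (fun x r => algebraMap k R r • (coL R e).symm (T.μ [x])) with hs'
  have e1 : z = s + kdI a u := by rw [hu]; abel
  have e2 : z' = s' + kdI a u' := by rw [hu']; abel
  have hs'c : kdI a s' = 0 := by
    have : s' = z' - kdI a u' := by rw [hu']; abel
    rw [this, map_sub, h1', kd_kd, sub_zero]
  have hss : s * s' ∈ LinearMap.range (kdI a) := by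
    rw [hs, hs', Finsupp.sum, Finsupp.sum, Finset.sum_mul]
    refine Submodule.sum_mem _ fun x _ => ?_
    rw [Finset.mul_sum]
    refine Submodule.sum_mem _ fun y _ => ?_
    rw [smul_mul_smul_comm]
    exact Submodule.smul_mem _ _ (T.mul_mem x y)
  have e3 : z * z' = s * s' + kdI a (u * s') + kdI a (involute z * u') := by
    rw [cycle_mul_kd a z u' h1, kd_mul_of_cycle_right a u s' hs'c]
    conv_lhs => rw [e2, mul_add]
    conv_lhs => enter [1]; rw [e1, add_mul]
  rw [e3]
  exact Submodule.add_mem _ (Submodule.add_mem _ hss ⟨_, rfl⟩) ⟨_, rfl⟩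

theorem kd_zero' : kd a (0 : Kos R e) = 0 := by
  rw [← map_zero (coL R e), ← coL_kd, map_zero]

theorem kmul_zero_left (z : Kos R e) : kmul 0 z = 0 := by
  funext C
  simp [kmul]

theorem kmul_zero_right (z : Kos R e) : kmul z 0 = 0 := by
  funext C
  simp [kmul]

theorem exists_trivialMassey {ι : Type} (v : ι → KosI R e) (dg : ι → ℕ) (hpos : ∀ i, 0 < dg i)
    (hdeg : ∀ i, IsDeg (dg i) (coL R e (v i))) (hcyc : ∀ i, kdI a (v i) = 0)
    (hmul : ∀ i j, v i * v j = 0)
    (hspan : ∀ z : KosI R e, ExteriorAlgebra.algebraMapInv z = 0 → kdI a z = 0 →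
      ∃ c : ι →₀ k, z - c.sum (fun x r => algebraMap k R r • v x) ∈ LinearMap.range (kdI a)) :
    Nonempty (TrivialMassey k a) := by
  classical
  let N : Submodule k (KosI R e) := (LinearMap.range (kdI a)).restrictScalars k
  let q : ι → KosI R e ⧸ N := fun i => N.mkQ (v i)
  obtain ⟨κ, f, hf, hsp, hli⟩ := exists_linearIndependent' k q
  let μ : List κ → Kos R e := fun l => match l with
    | [x] => coL R e (v (f x))
    | _ => 0
  have hμμ : ∀ l l' : List κ, kmul (μ l) (μ l') = 0 := by
    intro l l'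
    rcases l with _ | ⟨x, _ | ⟨y, l⟩⟩
    · exact kmul_zero_left _
    · rcases l' with _ | ⟨x', _ | ⟨y', l'⟩⟩
      · exact kmul_zero_right _
      · change kmul (coL R e (v (f x))) (coL R e (v (f x'))) = 0
        rw [← coL_mul, hmul, map_zero]
      · exact kmul_zero_right _
    · exact kmul_zero_left _
  have hsum : ∀ c : κ →₀ k, N.mkQ (c.sum (fun x r => algebraMap k R r • v (f x))) =
      c.sum (fun x r => r • (q ∘ f) x) := by
    intro c
    rw [Finsupp.sum, Finsupp.sum, map_sum]
    refine Finset.sum_congr rfl fun x _ => ?_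
    rw [algebraMap_smul, map_smul]; rfl
  refine ⟨{ Λ := κ, deg := fun x => dg (f x), deg_pos := fun x => hpos _, μ := μ, μ_deg := ?_,
            cycle := ?_, basis := ?_, massey := ?_ }⟩
  · intro l hl
    rcases l with _ | ⟨x, _ | ⟨y, l⟩⟩
    · exact absurd rfl hl
    · simpa [μ] using hdeg (f x)
    · intro A _; rfl
  · intro x
    change kd a (coL R e (v (f x))) = 0
    rw [← coL_kd, hcyc, map_zero]
  · intro y hy0 hy1
    obtain ⟨z, rfl⟩ := (coL R e).surjective y
    have hz0 : ExteriorAlgebra.algebraMapInv z = 0 := by rw [← coL_empty, hy0]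
    have hz1 : kdI a z = 0 := by
      apply (coL R e).injective
      rw [coL_kd, hy1, map_zero]
    have htr : ∀ c : κ →₀ k, IsBdry a (coL R e z -
        c.sum (fun x r => algebraMap k R r • μ [x])) ↔
        z - c.sum (fun x r => algebraMap k R r • v (f x)) ∈ LinearMap.range (kdI a) := by
      intro c
      have h2 : coL R e z - c.sum (fun x r => algebraMap k R r • μ [x]) =
          coL R e (z - c.sum (fun x r => algebraMap k R r • v (f x))) := by
        rw [map_sub, Finsupp.sum, Finsupp.sum, map_sum]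
        congr 1
        refine Finset.sum_congr rfl fun x _ => ?_
        rw [map_smul]
      rw [h2, isBdry_coL]
    obtain ⟨c₀, hc₀⟩ := hspan z hz0 hz1
    have hzq : N.mkQ z ∈ Submodule.span k (Set.range (q ∘ f)) := by
      rw [hsp]
      have : N.mkQ z = N.mkQ (c₀.sum (fun x r => algebraMap k R r • v x)) := by
        rw [← sub_eq_zero, ← map_sub]
        exact (Submodule.Quotient.mk_eq_zero N).mpr hc₀
      rw [this, Finsupp.sum, map_sum]
      refine Submodule.sum_mem _ fun x _ => ?_
      rw [algebraMap_smul, map_smul]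
      exact Submodule.smul_mem _ _ (Submodule.subset_span ⟨x, rfl⟩)
    obtain ⟨c, hc⟩ := (Finsupp.mem_span_range_iff_exists_finsupp).mp hzq
    refine ⟨c, (htr c).mpr ?_, ?_⟩
    · have : N.mkQ (z - c.sum (fun x r => algebraMap k R r • v (f x))) = 0 := by
        rw [map_sub, hsum, hc, sub_self]
      exact (Submodule.Quotient.mk_eq_zero N).mp this
    · intro c' hc'
      have h1 : N.mkQ (z - c'.sum (fun x r => algebraMap k R r • v (f x))) = 0 :=
        (Submodule.Quotient.mk_eq_zero N).mpr ((htr c').mp hc')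
      rw [map_sub, hsum, sub_eq_zero, ← hc] at h1
      have h2 := hli (a₁ := c) (a₂ := c') (by
        simpa [Finsupp.linearCombination_apply] using h1)
      exact h2.symm
  · intro l hl
    have h1 : μ l = 0 := by
      rcases l with _ | ⟨x, _ | ⟨y, l⟩⟩
      · simp at hl
      · simp at hl
      · rfl
    rw [h1, kd_zero']
    symm
    refine Finset.sum_eq_zero fun j _ => ?_
    rw [hμμ, smul_zero]

end

/-! ### The ideals -/

section
variable (k : Type u) [Field k]

/-- ideal of polynomials with support in an upward closed set -/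
def supIdeal (P : (Fin 4 →₀ ℕ) → Prop) (hP : ∀ a b, P b → P (a + b)) :
    Ideal (MvPolynomial (Fin 4) k) where
  carrier := {p | ∀ β, coeff β p ≠ 0 → P β}
  zero_mem' := by intro β h; simp at h
  add_mem' := by
    intro p q hp hq β h
    rw [coeff_add] at h
    by_cases h1 : coeff β p = 0
    · exact hq β (by rwa [h1, zero_add] at h)
    · exact hp β h1
  smul_mem' := by
    intro r p hp β h
    rw [smul_eq_mul, coeff_mul] at h
    obtain ⟨⟨γ, δ⟩, hγ, hne⟩ := Finset.exists_ne_zero_of_sum_ne_zero h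
    rw [Finset.HasAntidiagonal.mem_antidiagonal] at hγ
    simp only at hγ hne
    rw [← hγ]
    exact hP _ _ (hp δ (right_ne_zero_of_mul hne))

/-- exponents of the monomials in `I₂` -/
def Bad (β : Fin 4 →₀ ℕ) : Prop := (∃ j, 4 ≤ β j ∧ 5 ≤ ∑ i, β i) ∨ ∀ i, 3 ≤ β i

/-- necessary condition for exponents of monomials in `I₁I₂` -/
def Bad' (β : Fin 4 →₀ ℕ) : Prop :=
  (∃ j, 4 ≤ β j ∧ 7 ≤ ∑ i, β i) ∨ (14 ≤ ∑ i, β i ∧ ∀ i, 3 ≤ β i)

theorem bad_add (a b : Fin 4 →₀ ℕ) (h : Bad b) : Bad (a + b) := by
  rcases h with ⟨j, h1, h2⟩ | h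
  · left
    refine ⟨j, ?_, ?_⟩
    · simp only [Finsupp.add_apply]; omega
    · simp only [Finsupp.add_apply, Finset.sum_add_distrib]; omega
  · right
    intro i
    have := h i
    simp only [Finsupp.add_apply]; omega

theorem bad'_add (a b : Fin 4 →₀ ℕ) (h : Bad' b) : Bad' (a + b) := by
  rcases h with ⟨j, h1, h2⟩ | ⟨h0, h⟩
  · left
    refine ⟨j, ?_, ?_⟩
    · simp only [Finsupp.add_apply]; omega
    · simp only [Finsupp.add_apply, Finset.sum_add_distrib]; omega
  · right
    refine ⟨?_, fun i => ?_⟩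
    · simp only [Finsupp.add_apply, Finset.sum_add_distrib]; omega
    · have := h i
      simp only [Finsupp.add_apply]; omega

/-- the exponent `(3,3,3,3)` -/
noncomputable def tw : Fin 4 →₀ ℕ := Finsupp.equivFunOnFinite.symm fun _ => 3

theorem tw_apply (i : Fin 4) : tw i = 3 := rfl

theorem h_eq : ((X 0 * X 1 * X 2 * X 3) ^ 3 : MvPolynomial (Fin 4) k) = monomial tw 1 := by
  have : (tw : Fin 4 →₀ ℕ) = 3 • (Finsupp.single 0 1 + Finsupp.single 1 1 + Finsupp.single 2 1
      + Finsupp.single 3 1) := by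
    ext i
    fin_cases i <;> simp [tw_apply]
  rw [this, X, X, X, X, monomial_mul, monomial_mul, monomial_mul, monomial_pow]
  simp

theorem gen_eq (i j : Fin 4) : (X i * X j ^ 4 : MvPolynomial (Fin 4) k) =
    monomial (Finsupp.single i 1 + Finsupp.single j 4) 1 := by
  rw [X, X, monomial_pow, monomial_mul]
  simp

theorem monomial_mem_of_le (I : Ideal (MvPolynomial (Fin 4) k)) (γ β : Fin 4 →₀ ℕ) (c : k)
    (h : (monomial γ (1 : k)) ∈ I) (hle : γ ≤ β) : monomial β c ∈ I := by
  have : (monomial β c : MvPolynomial (Fin 4) k) = monomial (β - γ) c * monomial γ 1 := by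
    rw [monomial_mul, mul_one, tsub_add_cancel_of_le hle]
  rw [this]
  exact Ideal.mul_mem_left _ _ h

theorem I2_le : I2 k ≤ supIdeal k Bad bad_add := by
  unfold I2
  refine sup_le ?_ ?_
  · rw [Ideal.span_le]
    rintro _ ⟨⟨i, j⟩, rfl⟩
    intro β hβ
    simp only [gen_eq, coeff_monomial] at hβ
    have h1 : Finsupp.single i 1 + Finsupp.single j 4 = β := by
      by_contra h; simp [h] at hβ
    subst h1
    left
    refine ⟨j, ?_, ?_⟩
    · simp
    · simp only [Finsupp.add_apply, Finset.sum_add_distrib]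
      rw [Finset.sum_eq_single i, Finset.sum_eq_single j] <;>
        simp +contextual [eq_comm]
  · rw [Ideal.span_le, Set.singleton_subset_iff]
    intro β hβ
    rw [h_eq, coeff_monomial] at hβ
    have h1 : tw = β := by by_contra h; simp [h] at hβ
    subst h1
    right
    intro i
    exact le_of_eq (tw_apply i).symm

theorem bad_monomial_mem (β : Fin 4 →₀ ℕ) (hβ : Bad β) (c : k) : monomial β c ∈ I2 k := by
  rcases hβ with ⟨j, h1, h2⟩ | h
  · obtain ⟨i, hi⟩ : ∃ i, Finsupp.single i 1 + Finsupp.single j 4 ≤ β := by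
      by_cases h4 : 5 ≤ β j
      · refine ⟨j, fun x => ?_⟩
        by_cases hx : j = x
        · subst hx; simp; omega
        · simp [hx]
      · have : ∃ i, i ≠ j ∧ 1 ≤ β i := by
          by_contra hcon
          push Not at hcon
          rw [Finset.sum_eq_single j (fun b _ hb => by have := hcon b hb; omega) (by simp)] at h2
          omega
        obtain ⟨i, hij, hi⟩ := this
        refine ⟨i, fun x => ?_⟩
        by_cases hx : j = x
        · subst hx; simp [hij]; omega
        · by_cases hx' : i = x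
          · subst hx'; simp [hx]; omega
          · simp [hx, hx']
    refine monomial_mem_of_le k _ _ _ c ?_ hi
    rw [← gen_eq]
    exact Ideal.mem_sup_left (Ideal.subset_span ⟨(i, j), rfl⟩)
  · refine monomial_mem_of_le k _ tw _ c ?_ (fun i => h i)
    rw [← h_eq]
    exact Ideal.mem_sup_right (Ideal.subset_span rfl)

theorem mem_I2_iff (p : MvPolynomial (Fin 4) k) : p ∈ I2 k ↔ ∀ β, coeff β p ≠ 0 → Bad β := by
  constructor
  · intro h; exact I2_le k h
  · intro h
    rw [p.as_sum]
    refine Ideal.sum_mem _ fun β hβ => ?_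
    exact bad_monomial_mem k β (h β (mem_support_iff.mp hβ)) _

theorem mem_m_iff (p : MvPolynomial (Fin 4) k) : p ∈ idealOfVars (Fin 4) k ↔ coeff 0 p = 0 := by
  rw [← pow_one (idealOfVars (Fin 4) k), mem_pow_idealOfVars_iff']
  constructor
  · intro h; exact h 0 (by simp)
  · intro h x hx
    have : x = 0 := by
      rw [Nat.lt_one_iff] at hx
      exact (Finsupp.degree_eq_zero_iff x).mp hx
    rw [this, h]

theorem J_le : idealOfVars (Fin 4) k ^ 2 * I2 k ≤ supIdeal k Bad' bad'_add := by
  rw [Ideal.mul_le]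
  intro r hr s hs β hβ
  rw [mem_pow_idealOfVars_iff] at hr
  rw [mem_I2_iff] at hs
  rw [coeff_mul] at hβ
  obtain ⟨⟨γ, δ⟩, hγ, hne⟩ := Finset.exists_ne_zero_of_sum_ne_zero hβ
  rw [Finset.HasAntidiagonal.mem_antidiagonal] at hγ
  simp only at hγ hne
  have hδ := hs δ (right_ne_zero_of_mul hne)
  have h1 : 2 ≤ ∑ i, γ i := by
    have := hr γ (mem_support_iff.mpr (left_ne_zero_of_mul hne))
    rwa [Finsupp.degree_eq_sum] at this
  rw [← hγ]
  have hs' : ∑ i, (γ + δ) i = ∑ i, γ i + ∑ i, δ i := by
    simp only [Finsupp.add_apply, Finset.sum_add_distrib]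
  rcases hδ with ⟨j, h2, h3⟩ | h
  · left
    refine ⟨j, ?_, ?_⟩
    · simp only [Finsupp.add_apply]; omega
    · rw [hs']; omega
  · right
    refine ⟨?_, fun i => ?_⟩
    · rw [hs']
      have h4 : ∑ i : Fin 4, δ i = δ 0 + δ 1 + δ 2 + δ 3 := Fin.sum_univ_four _
      have := h 0; have := h 1; have := h 2; have := h 3
      omega
    · have := h i
      simp only [Finsupp.add_apply]; omega

theorem h_notMem_J :
    (monomial tw 1 : MvPolynomial (Fin 4) k) ∉ idealOfVars (Fin 4) k ^ 2 * I2 k := by
  intro h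
  have h1 := J_le k h tw (by simp)
  have hs : ∑ i, tw i = 12 := by simp [tw_apply]
  rcases h1 with ⟨j, h2, h3⟩ | ⟨h2, h3⟩
  · rw [tw_apply] at h2; omega
  · omega

theorem X_mem_m (i : Fin 4) : (X i : MvPolynomial (Fin 4) k) ∈ idealOfVars (Fin 4) k :=
  Ideal.subset_span ⟨i, rfl⟩

end

theorem EB_univ (R : Type u) [CommRing R] : EB R 4 Finset.univ =
    ExteriorAlgebra.ι R (Pi.single 0 1) * (ExteriorAlgebra.ι R (Pi.single 1 1) *
      (ExteriorAlgebra.ι R (Pi.single 2 1) * ExteriorAlgebra.ι R (Pi.single 3 1))) := by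
  have h : (Finset.univ : Finset (Fin 4)) = insert 0 (insert 1 (insert 2 (insert 3 ∅))) := by decide
  rw [h, EB_insert _ _ _ _ (by decide), EB_insert _ _ _ _ (by decide),
    EB_insert _ _ _ _ (by decide), EB_insert _ _ _ _ (by decide), EB_empty, mul_one]

theorem top_notMem_range {R : Type u} [CommRing R] (x : Fin 4 → R) (r : R)
    (h : r • EB R 4 Finset.univ ∈ LinearMap.range (kdI x)) : r = 0 := by
  obtain ⟨t, ht⟩ := h
  have h1 := kd_coord x t Finset.univ
  rw [ht, map_smul, Finsupp.smul_apply, Basis.repr_self, Finsupp.single_eq_same] at h1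
  simpa using h1

theorem kd_iota_iota {R : Type u} [CommRing R] {e : ℕ} (a : Fin e → R) (i j : Fin e) :
    kdI a (ExteriorAlgebra.ι R (Pi.single i 1) * ExteriorAlgebra.ι R (Pi.single j 1)) =
      a i • ExteriorAlgebra.ι R (Pi.single j 1) - a j • ExteriorAlgebra.ι R (Pi.single i 1) := by
  have hs : ∀ c : Fin e, (∑ i, (Pi.single c (1 : R) : Fin e → R) i * a i) = a c := by
    intro c
    rw [Finset.sum_eq_single c]
    · simp
    · intro b _ hb; simp [hb]
    · simp
  have h1 : kdI a (ExteriorAlgebra.ι R (Pi.single j 1)) = algebraMap R _ (a j) := by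
    have := kd_iota_mul a (Pi.single j 1) 1
    rw [mul_one, kd_one, mul_zero, sub_zero, hs, ← Algebra.algebraMap_eq_smul_one] at this
    exact this
  rw [kd_iota_mul, hs, h1, ← Algebra.commutes, ← Algebra.smul_def]

theorem aug_smul_mul {R : Type u} [CommRing R] {e : ℕ} (r : R) (v w : Fin e → R) :
    ExteriorAlgebra.algebraMapInv (r • (ExteriorAlgebra.ι R v * ExteriorAlgebra.ι R w)) = 0 := by
  have : ExteriorAlgebra.algebraMapInv (ExteriorAlgebra.ι R v) = 0 := by
    rw [ExteriorAlgebra.algebraMapInv, ExteriorAlgebra.lift_ι_apply]; rfl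
  rw [map_smul, map_mul, this, zero_mul, smul_zero]

theorem cyc2 {R : Type u} [CommRing R] {e : ℕ} (x : Fin e → R) (p : R) (i j : Fin e)
    (hi : p * x i = 0) (hj : p * x j = 0) :
    kdI x (p • (ExteriorAlgebra.ι R (Pi.single i 1) * ExteriorAlgebra.ι R (Pi.single j 1))) = 0 := by
  rw [map_smul, kd_iota_iota, smul_sub, smul_smul, smul_smul, hi, hj, zero_smul, zero_smul,
    sub_self]

theorem four_swap {R : Type u} [CommRing R] {A : Type u} [Ring A] [Algebra R A] (h : R)
    (a b c d a' b' c' d' : A) (ha : h • a = h • a') (hb : h • b = h • b') (hc : h • c = h • c')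
    (hd : h • d = h • d') : h • (a * (b * (c * d))) = h • (a' * (b' * (c' * d'))) := by
  rw [← smul_mul_assoc, ha, smul_mul_assoc, ← mul_smul_comm, ← smul_mul_assoc h b, hb,
    smul_mul_assoc, ← mul_smul_comm, ← smul_mul_assoc h c, hc, smul_mul_assoc, ← mul_smul_comm,
    hd]
  simp only [mul_smul_comm]

theorem abs_not_golod {k : Type u} [Field k] {R : Type u} [CommRing R] [Algebra k R]
    (x : Fin 4 → R) {e : ℕ} (a : Fin e → R)
    (hax : Ideal.span (Set.range a) = Ideal.span (Set.range x)) (p q : R)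
    (h0 : p * x 0 = 0) (h1 : p * x 1 = 0) (h2 : q * x 2 = 0) (h3 : q * x 3 = 0)
    (hann : ∀ m : Fin 4 → R, ∑ i, m i * x i = 0 → ∀ l, (p * q) * m l = 0)
    (T : TrivialMassey k a) : p * q = 0 := by
  have hC : ∀ j, ∃ c : Fin e → R, ∑ i, c i * a i = x j := by
    intro j
    have : x j ∈ Ideal.span (Set.range a) := by
      rw [hax]; exact Ideal.subset_span ⟨j, rfl⟩
    exact Ideal.mem_span_range_iff_exists_fun.mp this
  have hA : ∀ i, ∃ c : Fin 4 → R, ∑ j, c j * x j = a i := by
    intro i
    have : a i ∈ Ideal.span (Set.range x) := by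
      rw [← hax]; exact Ideal.subset_span ⟨i, rfl⟩
    exact Ideal.mem_span_range_iff_exists_fun.mp this
  choose C hC using hC
  choose A hA using hA
  let ψ : (Fin 4 → R) →ₗ[R] (Fin e → R) := Fintype.linearCombination R C
  let φ : (Fin e → R) →ₗ[R] (Fin 4 → R) := Fintype.linearCombination R A
  have hψ : ∀ v, ∑ i, (ψ v) i * a i = ∑ i, v i * x i := by
    intro v
    simp only [ψ, Fintype.linearCombination_apply, Finset.sum_apply, Pi.smul_apply, smul_eq_mul,
      Finset.sum_mul]
    rw [Finset.sum_comm]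
    refine Finset.sum_congr rfl fun j _ => ?_
    rw [← hC j, Finset.mul_sum]
    exact Finset.sum_congr rfl fun i _ => mul_assoc _ _ _
  have hφ : ∀ v, ∑ i, (φ v) i * x i = ∑ i, v i * a i := by
    intro v
    simp only [φ, Fintype.linearCombination_apply, Finset.sum_apply, Pi.smul_apply, smul_eq_mul,
      Finset.sum_mul]
    rw [Finset.sum_comm]
    refine Finset.sum_congr rfl fun j _ => ?_
    rw [← hA j, Finset.mul_sum]
    exact Finset.sum_congr rfl fun i _ => mul_assoc _ _ _
  let z₁ : KosI R 4 := p •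
        (ExteriorAlgebra.ι R (Pi.single 0 1) * ExteriorAlgebra.ι R (Pi.single 1 1))
  let z₂ : KosI R 4 := q •
        (ExteriorAlgebra.ι R (Pi.single 2 1) * ExteriorAlgebra.ι R (Pi.single 3 1))
  have hz₁ : kdI x z₁ = 0 := cyc2 x p 0 1 h0 h1
  have hz₂ : kdI x z₂ = 0 := cyc2 x q 2 3 h2 h3
  have e₁ : ExteriorAlgebra.map ψ z₁ = p • (ExteriorAlgebra.ι R (ψ (Pi.single 0 1)) *
      ExteriorAlgebra.ι R (ψ (Pi.single 1 1))) := by
    simp only [z₁, map_smul, map_mul, ExteriorAlgebra.map_apply_ι]
  have e₂ : ExteriorAlgebra.map ψ z₂ = q • (ExteriorAlgebra.ι R (ψ (Pi.single 2 1)) *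
      ExteriorAlgebra.ι R (ψ (Pi.single 3 1))) := by
    simp only [z₂, map_smul, map_mul, ExteriorAlgebra.map_apply_ι]
  have hp := T.product (ExteriorAlgebra.map ψ z₁) (ExteriorAlgebra.map ψ z₂)
    (by rw [e₁]; exact aug_smul_mul _ _ _)
    (by rw [kd_map x a ψ hψ, hz₁, map_zero])
    (by rw [e₂]; exact aug_smul_mul _ _ _)
    (by rw [kd_map x a ψ hψ, hz₂, map_zero])
  obtain ⟨t, ht⟩ := hp
  have hv : ∀ j : Fin 4, (p * q) • ExteriorAlgebra.ι R (φ (ψ (Pi.single j 1))) =
      (p * q) • ExteriorAlgebra.ι R (Pi.single j 1) := by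
    intro j
    rw [← (ExteriorAlgebra.ι R).map_smul, ← (ExteriorAlgebra.ι R).map_smul]
    have := hann (φ (ψ (Pi.single j 1)) - Pi.single j 1) (by
      have h1 := hφ (ψ (Pi.single j 1))
      rw [hψ] at h1
      simp only [Pi.sub_apply, sub_mul, Finset.sum_sub_distrib]
      rw [sub_eq_zero]; exact h1)
    have h5 : (p * q) • φ (ψ (Pi.single j 1)) = (p * q) • (Pi.single j 1 : Fin 4 → R) := by
      funext l
      have := this l
      rw [Pi.sub_apply, mul_sub, sub_eq_zero] at this
      simpa only [Pi.smul_apply, smul_eq_mul] using this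
    rw [h5]
  have key : ExteriorAlgebra.map φ (ExteriorAlgebra.map ψ z₁ * ExteriorAlgebra.map ψ z₂) =
      (p * q) • EB R 4 Finset.univ := by
    rw [e₁, e₂, smul_mul_smul_comm, map_smul, map_mul, map_mul, map_mul,
      ExteriorAlgebra.map_apply_ι, ExteriorAlgebra.map_apply_ι, ExteriorAlgebra.map_apply_ι,
      ExteriorAlgebra.map_apply_ι, EB_univ, mul_assoc]
    exact four_swap _ _ _ _ _ _ _ _ _ (hv 0) (hv 1) (hv 2) (hv 3)
  have hmem : (p * q) • EB R 4 Finset.univ ∈ LinearMap.range (kdI x) := by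
    rw [← key, ← ht]
    exact ⟨ExteriorAlgebra.map φ t, kd_map a x φ hφ t⟩
  exact top_notMem_range x _ hmem

section
variable (k : Type u) [Field k]

/-- the product ideal -/
noncomputable abbrev JJ : Ideal (MvPolynomial (Fin 4) k) := idealOfVars (Fin 4) k ^ 2 * I2 k

theorem gen_mem (i j : Fin 4) : (X i * X j ^ 4 : MvPolynomial (Fin 4) k) ∈ I2 k :=
  Ideal.mem_sup_left (Ideal.subset_span ⟨(i, j), rfl⟩)

theorem sq_mem (i j : Fin 4) :
    (X i * X j : MvPolynomial (Fin 4) k) ∈ idealOfVars (Fin 4) k ^ 2 := by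
  rw [pow_two]; exact Ideal.mul_mem_mul (X_mem_m k i) (X_mem_m k j)

theorem X_mul_h_mem (i : Fin 4) :
    (X i * (X 0 * X 1 * X 2 * X 3) ^ 3 : MvPolynomial (Fin 4) k) ∈ JJ k := by
  fin_cases i
  · have : (X 0 * (X 0 * X 1 * X 2 * X 3) ^ 3 : MvPolynomial (Fin 4) k) =
        (X 2 ^ 3 * X 3 ^ 3) * ((X 1 * X 1) * (X 1 * X 0 ^ 4)) := by ring
    change (X 0 * (X 0 * X 1 * X 2 * X 3) ^ 3 : MvPolynomial (Fin 4) k) ∈ JJ k
    rw [this]
    exact Ideal.mul_mem_left _ _ (Ideal.mul_mem_mul (sq_mem k _ _) (gen_mem k _ _))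
  · have : (X 1 * (X 0 * X 1 * X 2 * X 3) ^ 3 : MvPolynomial (Fin 4) k) =
        (X 2 ^ 3 * X 3 ^ 3) * ((X 0 * X 0) * (X 0 * X 1 ^ 4)) := by ring
    change (X 1 * (X 0 * X 1 * X 2 * X 3) ^ 3 : MvPolynomial (Fin 4) k) ∈ JJ k
    rw [this]
    exact Ideal.mul_mem_left _ _ (Ideal.mul_mem_mul (sq_mem k _ _) (gen_mem k _ _))
  · have : (X 2 * (X 0 * X 1 * X 2 * X 3) ^ 3 : MvPolynomial (Fin 4) k) =
        (X 1 ^ 3 * X 3 ^ 3) * ((X 0 * X 0) * (X 0 * X 2 ^ 4)) := by ring
    change (X 2 * (X 0 * X 1 * X 2 * X 3) ^ 3 : MvPolynomial (Fin 4) k) ∈ JJ k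
    rw [this]
    exact Ideal.mul_mem_left _ _ (Ideal.mul_mem_mul (sq_mem k _ _) (gen_mem k _ _))
  · have : (X 3 * (X 0 * X 1 * X 2 * X 3) ^ 3 : MvPolynomial (Fin 4) k) =
        (X 1 ^ 3 * X 2 ^ 3) * ((X 0 * X 0) * (X 0 * X 3 ^ 4)) := by ring
    change (X 3 * (X 0 * X 1 * X 2 * X 3) ^ 3 : MvPolynomial (Fin 4) k) ∈ JJ k
    rw [this]
    exact Ideal.mul_mem_left _ _ (Ideal.mul_mem_mul (sq_mem k _ _) (gen_mem k _ _))

theorem mul_h_mem (g : MvPolynomial (Fin 4) k) (hg : g ∈ idealOfVars (Fin 4) k) :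
    g * monomial tw 1 ∈ JJ k := by
  obtain ⟨c, hc⟩ := Ideal.mem_span_range_iff_exists_fun.mp hg
  rw [← hc, Finset.sum_mul]
  refine Ideal.sum_mem _ fun i _ => ?_
  rw [mul_assoc, ← h_eq]
  exact Ideal.mul_mem_left _ _ (X_mul_h_mem k i)

theorem ann (m : Fin 4 → MvPolynomial (Fin 4) k ⧸ JJ k)
    (hm : ∑ i, m i * Ideal.Quotient.mk (JJ k) (X i) = 0) (l : Fin 4) :
    Ideal.Quotient.mk (JJ k) (monomial tw 1) * m l = 0 := by
  choose g hg using fun i => Ideal.Quotient.mk_surjective (I := JJ k) (m i)
  have h1 : (∑ i, g i * X i) ∈ JJ k := by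
    rw [← Ideal.Quotient.eq_zero_iff_mem, map_sum, ← hm]
    refine Finset.sum_congr rfl fun i _ => ?_
    rw [map_mul, hg]
  have h2 : coeff (Finsupp.single l 1) (∑ i, g i * X i) = coeff 0 (g l) := by
    rw [coeff_sum, Finset.sum_eq_single l]
    · rw [coeff_mul_X', if_pos (by simp), tsub_self]
    · intro b _ hb
      rw [coeff_mul_X', if_neg]
      simp [hb]
    · simp
  have h3 : coeff 0 (g l) = 0 := by
    by_contra hne
    rw [← h2] at hne
    have hs : ∑ i, (Finsupp.single l 1 : Fin 4 →₀ ℕ) i = 1 := by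
      rw [Finset.sum_eq_single l] <;> simp +contextual [eq_comm]
    rcases J_le k h1 _ hne with ⟨j, _, h5⟩ | ⟨h5, _⟩ <;> omega
  have h4 : g l ∈ idealOfVars (Fin 4) k := (mem_m_iff k _).mpr h3
  rw [← hg l, ← map_mul, Ideal.Quotient.eq_zero_iff_mem, mul_comm]
  exact mul_h_mem k _ h4

theorem mem_J₁ (i j : Fin 4) : (X i ^ 3 * X j ^ 3 * X i : MvPolynomial (Fin 4) k) ∈ JJ k := by
  have : (X i ^ 3 * X j ^ 3 * X i : MvPolynomial (Fin 4) k) = X j * X j * (X j * X i ^ 4) := by ring
  rw [this]
  exact Ideal.mul_mem_mul (sq_mem k _ _) (gen_mem k _ _)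

theorem mem_J₂ (i j : Fin 4) : (X i ^ 3 * X j ^ 3 * X j : MvPolynomial (Fin 4) k) ∈ JJ k := by
  have : (X i ^ 3 * X j ^ 3 * X j : MvPolynomial (Fin 4) k) = X i * X i * (X i * X j ^ 4) := by ring
  rw [this]
  exact Ideal.mul_mem_mul (sq_mem k _ _) (gen_mem k _ _)

/-- For every finite generating family of the maximal ideal of `S/𝔪I₂` there is no trivial
Massey operation. -/
theorem not_golod_aux {e : ℕ} (a : Fin e → MvPolynomial (Fin 4) k ⧸ JJ k)
    (ha : Ideal.span (Set.range a) = (idealOfVars (Fin 4) k).map (Ideal.Quotient.mk (JJ k)))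
    (T : TrivialMassey k a) : False := by
  have hx : Ideal.span (Set.range fun l : Fin 4 => Ideal.Quotient.mk (JJ k) (X l)) =
      (idealOfVars (Fin 4) k).map (Ideal.Quotient.mk (JJ k)) := by
    rw [idealOfVars, Ideal.map_span]
    congr 1
    rw [← Set.range_comp]; rfl
  have hmul : Ideal.Quotient.mk (JJ k) (X 0 ^ 3 * X 1 ^ 3) *
        Ideal.Quotient.mk (JJ k) (X 2 ^ 3 * X 3 ^ 3) =
        Ideal.Quotient.mk (JJ k) (monomial tw 1) := by
    have h' : (X 0 ^ 3 * X 1 ^ 3 * (X 2 ^ 3 * X 3 ^ 3) : MvPolynomial (Fin 4) k) =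
        monomial tw 1 := by
      rw [← h_eq]; ring
    rw [← map_mul, h']
  have h := abs_not_golod (k := k) (fun l : Fin 4 => Ideal.Quotient.mk (JJ k) (X l)) a
    (ha.trans hx.symm) (Ideal.Quotient.mk (JJ k) (X 0 ^ 3 * X 1 ^ 3))
    (Ideal.Quotient.mk (JJ k) (X 2 ^ 3 * X 3 ^ 3))
    (by rw [← map_mul, Ideal.Quotient.eq_zero_iff_mem]; exact mem_J₁ k 0 1)
    (by rw [← map_mul, Ideal.Quotient.eq_zero_iff_mem]; exact mem_J₂ k 0 1)
    (by rw [← map_mul, Ideal.Quotient.eq_zero_iff_mem]; exact mem_J₁ k 2 3)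
    (by rw [← map_mul, Ideal.Quotient.eq_zero_iff_mem]; exact mem_J₂ k 2 3)
    (by rw [hmul]; exact ann k) T
  rw [hmul] at h
  exact h_notMem_J k (Ideal.Quotient.eq_zero_iff_mem.mp h)

end

/-- indicator exponent -/
noncomputable def ind (A : Finset (Fin 4)) : Fin 4 →₀ ℕ :=
  Finsupp.equivFunOnFinite.symm fun i => if i ∈ A then 1 else 0

theorem ind_apply (A : Finset (Fin 4)) (i : Fin 4) : ind A i = if i ∈ A then 1 else 0 := rfl

def Allowed (β : Fin 4 →₀ ℕ) (A : Finset (Fin 4)) : Prop :=
  ((∃ i, β = Finsupp.single i 4) ∨ (∃ i, β + Finsupp.single i 1 = tw)) ∨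
  ((∀ i, β i = if i ∈ A then 3 else 0) ∧ 2 ≤ A.card)

theorem le_sum (β : Fin 4 →₀ ℕ) (i : Fin 4) : β i ≤ ∑ j, β j :=
  Finset.single_le_sum (fun _ _ => Nat.zero_le _) (Finset.mem_univ i)

theorem add_le_sum (β : Fin 4 →₀ ℕ) (i j : Fin 4) (h : i ≠ j) : β i + β j ≤ ∑ j, β j := by
  rw [← Finset.sum_pair h]
  exact Finset.sum_le_sum_of_subset (Finset.subset_univ _)

theorem sum_single (c : Fin 4) (n : ℕ) : ∑ i, (Finsupp.single c n : Fin 4 →₀ ℕ) i = n := by
  rw [Finset.sum_eq_single c] <;> simp +contextual [eq_comm]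

theorem sum_tw : ∑ i, tw i = 12 := by simp [tw_apply]

theorem soc_bad (β : Fin 4 →₀ ℕ)
    (h : (∃ i, β = Finsupp.single i 4) ∨ (∃ i, β + Finsupp.single i 1 = tw)) (c : Fin 4) :
    Bad (β + Finsupp.single c 1) := by
  rcases h with ⟨i, rfl⟩ | ⟨i, hi⟩
  · left
    refine ⟨i, ?_, ?_⟩
    · simp
    · simp only [Finsupp.add_apply, Finset.sum_add_distrib, sum_single]; omega
  · by_cases hc : c = i
    · subst hc; rw [hi]; right; intro j; rw [tw_apply]
    · left
      have h1 : β c = 3 := by
        have := DFunLike.congr_fun hi c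
        rw [Finsupp.add_apply, tw_apply, Finsupp.single_apply, if_neg (Ne.symm hc)] at this
        simpa using this
      have h2 : ∑ j, β j = 11 := by
        have : ∑ j, (β + Finsupp.single i 1 : Fin 4 →₀ ℕ) j = 12 := by rw [hi, sum_tw]
        simp only [Finsupp.add_apply, Finset.sum_add_distrib, sum_single] at this
        omega
      refine ⟨c, ?_, ?_⟩
      · simp [h1]
      · simp only [Finsupp.add_apply, Finset.sum_add_distrib, sum_single]; omega

theorem sum_two (β : Fin 4 →₀ ℕ) (A : Finset (Fin 4)) (h : ∀ i, β i = if i ∈ A then 3 else 0) :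
    ∑ i, β i = 3 * A.card := by
  rw [Finset.sum_congr rfl fun i _ => h i, Finset.sum_ite_mem, Finset.univ_inter,
    Finset.sum_const, smul_eq_mul, mul_comm]

theorem allowed_bad (β : Fin 4 →₀ ℕ) (A : Finset (Fin 4)) (h : Allowed β A) (c : Fin 4)
    (hc : c ∈ A) : Bad (β + Finsupp.single c 1) := by
  rcases h with h | ⟨h1, h2⟩
  · exact soc_bad β h c
  · left
    refine ⟨c, ?_, ?_⟩
    · rw [Finsupp.add_apply, h1, if_pos hc]; simp
    · simp only [Finsupp.add_apply, Finset.sum_add_distrib, sum_single]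
      rw [sum_two β A h1]; omega

theorem allowed_pos (β : Fin 4 →₀ ℕ) (A : Finset (Fin 4)) (h : Allowed β A) :
    ∃ c, 1 ≤ β c := by
  rcases h with (⟨i, rfl⟩ | ⟨i, hi⟩) | ⟨h1, h2⟩
  · exact ⟨i, by simp⟩
  · by_contra hcon
    push Not at hcon
    have : ∑ j, (β + Finsupp.single i 1 : Fin 4 →₀ ℕ) j = 12 := by rw [hi, sum_tw]
    simp only [Finsupp.add_apply, Finset.sum_add_distrib, sum_single] at this
    have h0 : ∑ j, β j = 0 := Finset.sum_eq_zero fun j _ => by have := hcon j; omega
    omega
  · obtain ⟨c, hc⟩ : A.Nonempty := Finset.card_pos.mp (by omega)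
    exact ⟨c, by rw [h1, if_pos hc]; omega⟩

theorem soc_add_bad (β β' : Fin 4 →₀ ℕ)
    (h : (∃ i, β = Finsupp.single i 4) ∨ (∃ i, β + Finsupp.single i 1 = tw))
    (h' : ∃ c, 1 ≤ β' c) : Bad (β + β') := by
  obtain ⟨c, hc⟩ := h'
  have : β + β' = (β' - Finsupp.single c 1) + (β + Finsupp.single c 1) := by
    have h1 : Finsupp.single c 1 ≤ β' := by
      intro i
      by_cases hi : c = i
      · subst hi; simpa using hc
      · simp [hi]
    rw [add_comm β (Finsupp.single c 1), ← add_assoc, tsub_add_cancel_of_le h1, add_comm]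
  rw [this]
  exact bad_add _ _ (soc_bad β h c)

theorem allowed_add (β β' : Fin 4 →₀ ℕ) (A A' : Finset (Fin 4)) (h : Allowed β A)
    (h' : Allowed β' A') : Bad (β + β') := by
  rcases h with h | ⟨h1, h2⟩
  · exact soc_add_bad β β' h (allowed_pos β' A' h')
  · rcases h' with h' | ⟨h1', h2'⟩
    · rw [add_comm]
      exact soc_add_bad β' β h' (allowed_pos β A (Or.inr ⟨h1, h2⟩))
    · by_cases hd : Disjoint A A'
      · right
        have hcard : (A ∪ A').card = A.card + A'.card := Finset.card_union_of_disjoint hd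
        have hle : (A ∪ A').card ≤ 4 := by
          have := Finset.card_le_univ (A ∪ A'); simpa using this
        have hu : A ∪ A' = Finset.univ := by
          apply Finset.eq_univ_of_card; simp; omega
        intro i
        have hi : i ∈ A ∪ A' := by rw [hu]; exact Finset.mem_univ i
        rw [Finsupp.add_apply, h1, h1']
        rcases Finset.mem_union.mp hi with hi | hi
        · rw [if_pos hi]; omega
        · rw [if_pos hi]; omega
      · left
        obtain ⟨c, hc, hc'⟩ := Finset.not_disjoint_iff.mp hd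
        refine ⟨c, ?_, ?_⟩
        · rw [Finsupp.add_apply, h1, h1', if_pos hc, if_pos hc']; omega
        · simp only [Finsupp.add_apply, Finset.sum_add_distrib]
          rw [sum_two β A h1, sum_two β' A' h1']; omega

/-- the combinatorial heart -/
theorem comb (β : Fin 4 →₀ ℕ) (A : Finset (Fin 4)) (a : Fin 4) (ha : a ∈ A)
    (hp : (∃ i, 1 ≤ (β + ind A) i ∧ (β + ind A) i ≤ 3) → (β + ind A) a ≤ 3)
    (hb : Bad (β + Finsupp.single a 1)) : Bad β ∨ Allowed β A := by
  have hsum : ∑ i, (β + Finsupp.single a 1 : Fin 4 →₀ ℕ) i = ∑ i, β i + 1 := by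
    simp only [Finsupp.add_apply, Finset.sum_add_distrib, sum_single]
  have hval : ∀ i, i ≠ a → (β + Finsupp.single a 1 : Fin 4 →₀ ℕ) i = β i := by
    intro i hi
    rw [Finsupp.add_apply, Finsupp.single_apply, if_neg (Ne.symm hi), add_zero]
  have hvala : (β + Finsupp.single a 1 : Fin 4 →₀ ℕ) a = β a + 1 := by simp
  have key : ∀ j, 4 ≤ β j → 4 ≤ ∑ i, β i → Bad β ∨ Allowed β A := by
    intro j hj hs
    by_cases h4 : 5 ≤ ∑ i, β i
    · exact Or.inl (Or.inl ⟨j, hj, h4⟩)
    · right; left; left
      refine ⟨j, ?_⟩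
      ext i
      by_cases hij : i = j
      · subst hij
        have := le_sum β i
        simp; omega
      · have := add_le_sum β i j hij
        rw [Finsupp.single_apply, if_neg (Ne.symm hij)]; omega
  rcases hb with ⟨j, h1, h2⟩ | h
  · rw [hsum] at h2
    by_cases hja : j = a
    · subst hja
      rw [hvala] at h1
      by_cases h3 : 4 ≤ β j
      · exact key j h3 (by omega)
      · have hβj : β j = 3 := by omega
        have hα : ¬ (β + ind A) j ≤ 3 := by
          rw [Finsupp.add_apply, ind_apply, if_pos ha]; omega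
        have hno : ∀ i, ¬ (1 ≤ (β + ind A) i ∧ (β + ind A) i ≤ 3) := by
          intro i hi; exact hα (hp ⟨i, hi⟩)
        by_cases h5 : ∃ i, 4 ≤ β i
        · obtain ⟨i, hi⟩ := h5
          exact key i hi (by omega)
        · push Not at h5
          right; right
          have hβ : ∀ i, β i = if i ∈ A then 3 else 0 := by
            intro i
            have h6 := h5 i
            have h7 := hno i
            rw [Finsupp.add_apply, ind_apply] at h7
            by_cases hi : i ∈ A
            · rw [if_pos hi] at h7 ⊢; omega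
            · rw [if_neg hi] at h7 ⊢; omega
          refine ⟨hβ, ?_⟩
          rw [sum_two β A hβ] at h2
          omega
    · rw [hval j hja] at h1
      exact key j h1 (by omega)
  · have ha2 : 3 ≤ β a + 1 := by have := h a; rwa [hvala] at this
    have hoth : ∀ i, i ≠ a → 3 ≤ β i := by
      intro i hi; have := h i; rwa [hval i hi] at this
    by_cases h3 : ∃ i, 4 ≤ β i
    · obtain ⟨i, hi⟩ := h3
      exact key i hi (by have := le_sum β i; omega)
    · push Not at h3
      by_cases h4 : 3 ≤ β a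
      · left; right
        intro i
        by_cases hi : i = a
        · subst hi; exact h4
        · exact hoth i hi
      · right; left; right
        refine ⟨a, ?_⟩
        ext i
        by_cases hi : i = a
        · subst hi; rw [hvala, tw_apply]; omega
        · rw [hval i hi, tw_apply]
          have := h3 i; have := hoth i hi; omega

theorem exists_pick : ∃ pick : (Fin 4 →₀ ℕ) → Fin 4, ∀ α : Fin 4 →₀ ℕ,
    (α ≠ 0 → 1 ≤ α (pick α)) ∧ ((∃ i, 1 ≤ α i ∧ α i ≤ 3) → α (pick α) ≤ 3) := by
  have : ∀ α : Fin 4 →₀ ℕ, ∃ a, (α ≠ 0 → 1 ≤ α a) ∧ ((∃ i, 1 ≤ α i ∧ α i ≤ 3) → α a ≤ 3) := by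
    intro α
    by_cases h : ∃ i, 1 ≤ α i ∧ α i ≤ 3
    · obtain ⟨i, h1, h2⟩ := h
      exact ⟨i, fun _ => h1, fun _ => h2⟩
    · by_cases h0 : α = 0
      · exact ⟨0, fun h => absurd h0 h, fun h' => absurd h' h⟩
      · obtain ⟨i, hi⟩ := Finsupp.ne_iff.mp h0
        refine ⟨i, fun _ => ?_, fun h' => absurd h' h⟩
        simp only [Finsupp.coe_zero, Pi.zero_apply] at hi
        omega
  choose p hp using this
  exact ⟨p, hp⟩

section
variable (k : Type u) [Field k]

theorem exists_poly (f : (Fin 4 →₀ ℕ) → k) (s : Finset (Fin 4 →₀ ℕ)) (h : ∀ β, f β ≠ 0 → β ∈ s) :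
    ∃ p : MvPolynomial (Fin 4) k, ∀ β, coeff β p = f β := by
  classical
  refine ⟨∑ β ∈ s, monomial β (f β), fun β => ?_⟩
  rw [coeff_sum]
  simp only [coeff_monomial]
  rw [Finset.sum_ite_eq' s β f]
  split_ifs with hβ
  · rfl
  · by_contra hne
    exact hβ (h β (Ne.symm hne))

end

theorem gen_cycle {R : Type u} [CommRing R] {e : ℕ} (x : Fin e → R) (p : R) (A : Finset (Fin e))
    (h : ∀ c ∈ A, p * x c = 0) : kdI x (p • EB R e A) = 0 := by
  rw [map_smul, kd_EB, Finset.smul_sum]
  refine Finset.sum_eq_zero fun c hc => ?_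
  rw [smul_smul, mul_left_comm, h c hc, mul_zero, zero_smul]

theorem gen_mul {R : Type u} [CommRing R] {e : ℕ} (p q : R) (y z : KosI R e) (h : p * q = 0) :
    (p • y) * (q • z) = 0 := by
  rw [smul_mul_smul_comm, h, zero_smul]

section
variable (k : Type u) [Field k]

/-- images of the variables -/
noncomputable def xx : Fin 4 → MvPolynomial (Fin 4) k ⧸ I2 k :=
  fun l => Ideal.Quotient.mk (I2 k) (X l)

/-- index type of the explicit cycles -/
abbrev Idx : Type := {p : (Fin 4 →₀ ℕ) × Finset (Fin 4) // p.2 ≠ ∅ ∧ Allowed p.1 p.2}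

/-- the explicit cycles -/
noncomputable def vv (p : Idx) : KosI (MvPolynomial (Fin 4) k ⧸ I2 k) 4 :=
  Ideal.Quotient.mk (I2 k) (monomial p.1.1 1) • EB _ 4 p.1.2

theorem mk_monomial_bad (β : Fin 4 →₀ ℕ) (c : k) (h : Bad β) :
    Ideal.Quotient.mk (I2 k) (monomial β c) = 0 :=
  Ideal.Quotient.eq_zero_iff_mem.mpr (bad_monomial_mem k β h c)

theorem vv_cycle (p : Idx) : kdI (xx k) (vv k p) = 0 := by
  refine gen_cycle _ _ _ fun c hc => ?_
  rw [xx, ← map_mul, X, monomial_mul, mul_one]
  exact mk_monomial_bad k _ _ (allowed_bad _ _ p.2.2 c hc)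

theorem vv_mul (p q : Idx) : vv k p * vv k q = 0 := by
  refine gen_mul _ _ _ _ ?_
  rw [← map_mul, monomial_mul]
  exact mk_monomial_bad k _ _ (allowed_add _ _ _ _ p.2.2 q.2.2)

theorem coeff_intCast_mul (n : ℤ) (p : MvPolynomial (Fin 4) k) (β : Fin 4 →₀ ℕ) :
    coeff β ((n : MvPolynomial (Fin 4) k) * p) = (n : k) * coeff β p := by
  rw [← map_intCast (C : k →+* MvPolynomial (Fin 4) k), coeff_C_mul]

theorem coeff_X_mul_ite (c : Fin 4) (p : MvPolynomial (Fin 4) k) (β : Fin 4 →₀ ℕ) :
    coeff β (X c * p) = if β c = 0 then 0 else coeff (β - Finsupp.single c 1) p := by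
  rw [coeff_X_mul']
  by_cases h : β c = 0
  · rw [if_pos h, if_neg]; simpa using h
  · rw [if_neg h, if_pos]; simpa using h

theorem eps_cast_sq (a : Fin 4) (A : Finset (Fin 4)) : (eps 4 a A : k) * (eps 4 a A : k) = 1 := by
  rw [← Int.cast_mul, eps_mul_self, Int.cast_one]

/-- core: the correction of a cycle by a boundary -/
theorem correction (r : Finset (Fin 4) → MvPolynomial (Fin 4) k) (hr0 : r ∅ = 0)
    (hcyc : ∀ B γ, ¬ Bad γ → ∑ c, (if c ∈ B then 0 else (eps 4 c (insert c B) : k) *
      (if γ c = 0 then 0 else coeff (γ - Finsupp.single c 1) (r (insert c B)))) = 0) :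
    ∃ w : Finset (Fin 4) → MvPolynomial (Fin 4) k, ∀ A β,
      (coeff β (r A) - ∑ c, (if c ∈ A then 0 else (eps 4 c (insert c A) : k) *
        (if β c = 0 then 0 else coeff (β - Finsupp.single c 1) (w (insert c A))))) ≠ 0 →
      A ≠ ∅ ∧ (Bad β ∨ Allowed β A) := by
  classical
  obtain ⟨pick, hpick⟩ := exists_pick
  have hw : ∀ B : Finset (Fin 4), ∃ p : MvPolynomial (Fin 4) k, ∀ β, coeff β p =
      if pick (β + ind B) ∈ B then (eps 4 (pick (β + ind B)) B : k) *
        coeff (β + Finsupp.single (pick (β + ind B)) 1) (r (B.erase (pick (β + ind B)))) else 0 := by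
    intro B
    refine exists_poly k _ ((Finset.univ : Finset (Fin 4)).biUnion fun a =>
      (r (B.erase a)).support.image fun γ => γ - Finsupp.single a 1) ?_
    intro β hβ
    split_ifs at hβ with h
    · refine Finset.mem_biUnion.mpr ⟨pick (β + ind B), Finset.mem_univ _, ?_⟩
      refine Finset.mem_image.mpr ⟨β + Finsupp.single (pick (β + ind B)) 1, ?_, ?_⟩
      · exact mem_support_iff.mpr (right_ne_zero_of_mul hβ)
      · exact add_tsub_cancel_right _ _
    · exact absurd rfl hβ
  choose w hw using hw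
  refine ⟨w, fun A β hne => ?_⟩
  have hα : ∀ c, c ∉ A → β c ≠ 0 → β - Finsupp.single c 1 + ind (insert c A) = β + ind A := by
    intro c hc hβ
    ext i
    simp only [Finsupp.add_apply, Finsupp.tsub_apply, ind_apply, Finset.mem_insert]
    by_cases hi : i = c
    · subst hi; simp [hc]; omega
    · simp [hi]
  set a := pick (β + ind A) with ha
  have hterm : ∀ c, (if c ∈ A then 0 else (eps 4 c (insert c A) : k) *
        (if β c = 0 then 0 else coeff (β - Finsupp.single c 1) (w (insert c A)))) =
      if c ∈ A then 0 else if β c = 0 then 0 else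
        if a ∈ insert c A then (eps 4 c (insert c A) : k) * ((eps 4 a (insert c A) : k) *
          coeff (β - Finsupp.single c 1 + Finsupp.single a 1) (r ((insert c A).erase a))) else 0 := by
    intro c
    by_cases hc : c ∈ A
    · rw [if_pos hc, if_pos hc]
    · rw [if_neg hc, if_neg hc]
      by_cases hβ : β c = 0
      · rw [if_pos hβ, if_pos hβ, mul_zero]
      · rw [if_neg hβ, if_neg hβ, hw, hα c hc hβ, ← ha]
        split_ifs
        · rfl
        · rw [mul_zero]
  rw [Finset.sum_congr rfl fun c _ => hterm c] at hne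
  by_cases haA : a ∈ A
  · refine ⟨fun h => by rw [h] at haA; simp at haA, ?_⟩
    by_contra hcon
    have hnb : ¬ Bad (β + Finsupp.single a 1) := by
      intro hb
      exact hcon (comb β A a haA (hpick (β + ind A)).2 hb)
    have h1 := hcyc (A.erase a) (β + Finsupp.single a 1) hnb
    apply hne
    rw [← Finset.add_sum_erase _ _ (Finset.mem_univ a)] at h1
    rw [if_neg (Finset.notMem_erase a A), Finset.insert_erase haA, if_neg (by simp),
      add_tsub_cancel_right] at h1
    have h2 : coeff β (r A) = - ((eps 4 a A : k) * ∑ x ∈ Finset.univ.erase a,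
        (if x ∈ A.erase a then 0 else (eps 4 x (insert x (A.erase a)) : k) *
          (if (β + Finsupp.single a 1 : Fin 4 →₀ ℕ) x = 0 then 0 else
            coeff (β + Finsupp.single a 1 - Finsupp.single x 1) (r (insert x (A.erase a)))))) := by
      have h3 := eps_cast_sq k a A
      linear_combination (eps 4 a A : k) * h1 - coeff β (r A) * h3
    rw [h2, ← Finset.add_sum_erase _ _ (Finset.mem_univ a), if_pos haA, zero_add,
      Finset.mul_sum, ← Finset.sum_neg_distrib, ← Finset.sum_sub_distrib]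
    refine Finset.sum_eq_zero fun c hc => ?_
    have hca : c ≠ a := (Finset.mem_erase.mp hc).1
    by_cases hcA : c ∈ A
    · rw [if_pos (Finset.mem_erase.mpr ⟨hca, hcA⟩), if_pos hcA]; simp
    · rw [if_neg (fun h => hcA (Finset.mem_of_mem_erase h)), if_neg hcA]
      have h4 : (β + Finsupp.single a 1 : Fin 4 →₀ ℕ) c = β c := by
        rw [Finsupp.add_apply, Finsupp.single_apply, if_neg (Ne.symm hca), add_zero]
      rw [h4]
      by_cases hβ : β c = 0
      · rw [if_pos hβ, if_pos hβ]; simp
      · rw [if_neg hβ, if_neg hβ, if_pos (Finset.mem_insert_of_mem haA)]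
        have h5 : (insert c A).erase a = insert c (A.erase a) :=
          Finset.erase_insert_of_ne hca
        have h6 : β - Finsupp.single c 1 + Finsupp.single a 1 =
            β + Finsupp.single a 1 - Finsupp.single c 1 := by
          ext i
          simp only [Finsupp.add_apply, Finsupp.tsub_apply, Finsupp.single_apply]
          by_cases hi : c = i
          · subst hi; simp [Ne.symm hca]
          · simp [hi]
        rw [h5, h6]
        have h7 := eps_rel (e := 4) a c A haA hcA
        have h8 : (eps 4 c (insert c A) : k) * (eps 4 a (insert c A) : k) =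
            - ((eps 4 a A : k) * (eps 4 c (insert c (A.erase a)) : k)) := by
          rw [← Int.cast_mul, h7]; push_cast; ring
        linear_combination - coeff (β + Finsupp.single a 1 - Finsupp.single c 1)
          (r (insert c (A.erase a))) * h8
  · exfalso
    by_cases hA0 : β + ind A = 0
    · have hA : A = ∅ := by
        by_contra h
        obtain ⟨i, hi⟩ := Finset.nonempty_iff_ne_empty.mpr h
        have := DFunLike.congr_fun hA0 i
        rw [Finsupp.add_apply, ind_apply, if_pos hi] at this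
        simp at this
      have hβ0 : ∀ i, β i = 0 := by
        intro i
        have := DFunLike.congr_fun hA0 i
        rw [Finsupp.add_apply] at this
        simp only [Finsupp.coe_zero, Pi.zero_apply] at this
        omega
      apply hne
      rw [hA, hr0, coeff_zero, zero_sub, neg_eq_zero]
      refine Finset.sum_eq_zero fun c _ => ?_
      rw [if_neg (by simp), if_pos (hβ0 c)]
    · have hβa : β a ≠ 0 := by
        have := (hpick (β + ind A)).1 hA0
        rw [← ha, Finsupp.add_apply, ind_apply, if_neg haA] at this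
        omega
      apply hne
      rw [Finset.sum_eq_single a]
      · rw [if_neg haA, if_neg hβa, if_pos (Finset.mem_insert_self _ _), ← mul_assoc,
          eps_cast_sq, one_mul, Finset.erase_insert haA, tsub_add_cancel_of_le, sub_self]
        intro i
        by_cases hi : a = i
        · subst hi; simp; omega
        · simp [hi]
      · intro c _ hca
        by_cases hcA : c ∈ A
        · rw [if_pos hcA]
        · rw [if_neg hcA]
          by_cases hβ : β c = 0
          · rw [if_pos hβ]
          · rw [if_neg hβ, if_neg]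
            intro h
            rcases Finset.mem_insert.mp h with h | h
            · exact hca h.symm
            · exact haA h
      · intro h; exact absurd (Finset.mem_univ _) h

end

theorem gen_zero {R : Type u} [CommRing R] {e : ℕ} (y : KosI R e) (p : R) (h : p = 0) :
    p • y = 0 := by rw [h, zero_smul]

theorem gen_final {k : Type u} [Field k] {R : Type u} [CommRing R] [Algebra k R] {e : ℕ}
    {ι : Type} (v : ι → KosI R e) (a : Fin e → R) (z W : KosI R e)
    (hmem : z - kdI a W ∈ Submodule.span k (Set.range v)) :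
    ∃ c : ι →₀ k, z - c.sum (fun x r => algebraMap k R r • v x) ∈ LinearMap.range (kdI a) := by
  obtain ⟨c, hc⟩ := (Finsupp.mem_span_range_iff_exists_finsupp).mp hmem
  refine ⟨c, W, ?_⟩
  simp only [algebraMap_smul]
  rw [hc]; abel

section
variable (k : Type u) [Field k]

theorem hspan_I2 (z : KosI (MvPolynomial (Fin 4) k ⧸ I2 k) 4)
    (hz0 : ExteriorAlgebra.algebraMapInv z = 0) (hz1 : kdI (xx k) z = 0) :
    ∃ c : Idx →₀ k, z - c.sum (fun x r => algebraMap k (MvPolynomial (Fin 4) k ⧸ I2 k) r • vv k x) ∈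
      LinearMap.range (kdI (xx k)) := by
  classical
  have hr : ∀ A : Finset (Fin 4), ∃ r : MvPolynomial (Fin 4) k,
      Ideal.Quotient.mk (I2 k) r = (EB _ 4).repr z A ∧ (A = ∅ → r = 0) := by
    intro A
    by_cases hA : A = ∅
    · refine ⟨0, ?_, fun _ => rfl⟩
      rw [map_zero, hA, coord_empty, hz0]
    · obtain ⟨r, hr⟩ := Ideal.Quotient.mk_surjective (I := I2 k) ((EB _ 4).repr z A)
      exact ⟨r, hr, fun h => absurd h hA⟩
  choose r hr hr0 using hr
  have hcyc : ∀ B γ, ¬ Bad γ → ∑ c, (if c ∈ B then 0 else (eps 4 c (insert c B) : k) *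
      (if γ c = 0 then 0 else coeff (γ - Finsupp.single c 1) (r (insert c B)))) = 0 := by
    intro B γ hγ
    have h1 := kd_coord (xx k) z B
    rw [hz1, map_zero, Finsupp.zero_apply] at h1
    have h2 : Ideal.Quotient.mk (I2 k) (∑ c, if c ∈ B then 0 else
        ((eps 4 c (insert c B) : ℤ) : MvPolynomial (Fin 4) k) * (X c * r (insert c B))) = 0 := by
      rw [map_sum, h1]
      refine Finset.sum_congr rfl fun c _ => ?_
      by_cases hc : c ∈ B
      · rw [if_pos hc, if_pos hc, map_zero]
      · rw [if_neg hc, if_neg hc, map_mul, map_mul, map_intCast, hr, xx, mul_assoc]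
    rw [Ideal.Quotient.eq_zero_iff_mem, mem_I2_iff] at h2
    have h3 : coeff γ (∑ c, if c ∈ B then 0 else
        ((eps 4 c (insert c B) : ℤ) : MvPolynomial (Fin 4) k) * (X c * r (insert c B))) = 0 := by
      by_contra h; exact hγ (h2 γ h)
    rw [coeff_sum] at h3
    refine Eq.trans (Finset.sum_congr rfl fun c _ => ?_) h3
    by_cases hc : c ∈ B
    · rw [if_pos hc, if_pos hc, coeff_zero]
    · rw [if_neg hc, if_neg hc, coeff_intCast_mul, coeff_X_mul_ite]
  obtain ⟨w, hw⟩ := correction k r (hr0 ∅ rfl) hcyc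
  let W : KosI (MvPolynomial (Fin 4) k ⧸ I2 k) 4 :=
    (EB _ 4).equivFun.symm fun B => Ideal.Quotient.mk (I2 k) (w B)
  have hW : ∀ B, (EB _ 4).repr W B = Ideal.Quotient.mk (I2 k) (w B) := by
    intro B
    rw [← Basis.equivFun_apply]
    simp only [W, LinearEquiv.apply_symm_apply]
  let q : Finset (Fin 4) → MvPolynomial (Fin 4) k := fun A => r A - ∑ c, if c ∈ A then 0 else
        ((eps 4 c (insert c A) : ℤ) : MvPolynomial (Fin 4) k) * (X c * w (insert c A))
  have hq : ∀ A, (EB _ 4).repr (z - kdI (xx k) W) A = Ideal.Quotient.mk (I2 k) (q A) := by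
    intro A
    rw [map_sub, Finsupp.sub_apply, kd_coord, ← hr A]
    simp only [q]
    rw [map_sub, map_sum]
    congr 1
    refine Finset.sum_congr rfl fun c _ => ?_
    by_cases hc : c ∈ A
    · rw [if_pos hc, if_pos hc, map_zero]
    · rw [if_neg hc, if_neg hc, map_mul, map_mul, map_intCast, hW, xx, mul_assoc]
  have hqc : ∀ A β, coeff β (q A) ≠ 0 → A ≠ ∅ ∧ (Bad β ∨ Allowed β A) := by
    intro A β hne
    apply hw A β
    convert hne using 1
    simp only [q]
    rw [coeff_sub, coeff_sum]
    congr 1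
    refine Finset.sum_congr rfl fun c _ => ?_
    by_cases hc : c ∈ A
    · rw [if_pos hc, if_pos hc, coeff_zero]
    · rw [if_neg hc, if_neg hc, coeff_intCast_mul, coeff_X_mul_ite]
  have hmem : z - kdI (xx k) W ∈ Submodule.span k (Set.range (vv k)) := by
    rw [← (EB _ 4).sum_repr (z - kdI (xx k) W)]
    refine Submodule.sum_mem _ fun A _ => ?_
    have hqA : Ideal.Quotient.mk (I2 k) (q A) =
        ∑ β ∈ (q A).support, Ideal.Quotient.mk (I2 k) (monomial β (coeff β (q A))) := by
      conv_lhs => rw [(q A).as_sum]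
      rw [map_sum]
    rw [hq A, hqA, Finset.sum_smul]
    refine Submodule.sum_mem _ fun β hβ => ?_
    have hne := mem_support_iff.mp hβ
    obtain ⟨hA, hb | hal⟩ := hqc A β hne
    · rw [gen_zero _ _ (mk_monomial_bad k β _ hb)]; exact Submodule.zero_mem _
    · have h1 : (monomial β (coeff β (q A)) : MvPolynomial (Fin 4) k) =
          coeff β (q A) • monomial β 1 := by
        rw [smul_monomial, smul_eq_mul, mul_one]
      have h2 : Ideal.Quotient.mk (I2 k) (coeff β (q A) • monomial β 1) =
          coeff β (q A) • Ideal.Quotient.mk (I2 k) (monomial β 1) := rfl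
      rw [h1, h2, smul_assoc]
      exact Submodule.smul_mem _ _ (Submodule.subset_span ⟨⟨(β, A), hA, hal⟩, rfl⟩)
  exact gen_final _ _ _ _ hmem

theorem massey_I2 : Nonempty (TrivialMassey k (xx k)) :=
  exists_trivialMassey (vv k) (fun p => p.1.2.card)
    (fun p => Finset.card_pos.mpr (Finset.nonempty_iff_ne_empty.mpr p.2.1))
    (fun _ => isDeg_coL _ _) (vv_cycle k) (vv_mul k) (hspan_I2 k)

theorem X_notMem (I : Ideal (MvPolynomial (Fin 4) k))
    (hI : ∀ p ∈ I, ∀ i, coeff (Finsupp.single i 1) p = 0) (i : Fin 4) :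
    Ideal.Quotient.mk I (X i) ∉ Ideal.span ((fun j => Ideal.Quotient.mk I (X j)) '' {i}ᶜ) := by
  intro hi
  rw [← Function.comp_def, Set.image_comp, ← Ideal.map_span,
    Ideal.mem_map_iff_of_surjective _ Ideal.Quotient.mk_surjective] at hi
  obtain ⟨p, hp, hpi⟩ := hi
  rw [Ideal.Quotient.eq] at hpi
  have hP : ∀ a b : Fin 4 →₀ ℕ, (∃ j, j ≠ i ∧ 1 ≤ b j) → (∃ j, j ≠ i ∧ 1 ≤ (a + b) j) := by
    rintro a b ⟨j, hj, h1⟩
    exact ⟨j, hj, by rw [Finsupp.add_apply]; omega⟩
  have h1 : p ∈ supIdeal k (fun β => ∃ j, j ≠ i ∧ 1 ≤ β j) hP := by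
    refine (Ideal.span_le.mpr ?_) hp
    rintro _ ⟨j, hj, rfl⟩
    intro β hβ
    refine ⟨j, hj, ?_⟩
    rw [coeff_X] at hβ
    split_ifs at hβ with h
    · rw [← h]; simp
    · exact absurd rfl hβ
  have h2 : coeff (Finsupp.single i 1) p = 0 := by
    by_contra h
    obtain ⟨j, hj, hj'⟩ := h1 _ h
    rw [Finsupp.single_apply, if_neg (Ne.symm hj)] at hj'
    omega
  have h3 := hI _ hpi i
  rw [coeff_sub, h2, coeff_X, if_pos rfl] at h3
  simp at h3

theorem span_X (I : Ideal (MvPolynomial (Fin 4) k)) :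
    Ideal.span (Set.range fun i => Ideal.Quotient.mk I (X i)) =
      (idealOfVars (Fin 4) k).map (Ideal.Quotient.mk I) := by
  rw [idealOfVars, Ideal.map_span]
  congr 1
  rw [← Set.range_comp]; rfl

theorem bad_degree (β : Fin 4 →₀ ℕ) (h : Bad β) : 5 ≤ ∑ i, β i := by
  rcases h with ⟨_, _, h⟩ | h
  · exact h
  · have h4 : ∑ i : Fin 4, β i = β 0 + β 1 + β 2 + β 3 := Fin.sum_univ_four _
    have := h 0; have := h 1; have := h 2; have := h 3
    omega

theorem isGolod_I2 (w : Fin 4 → ℕ) : IsGolod w (I2 k) := by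
  refine ⟨4, X, fun i => Ideal.Quotient.mk (I2 k) (X i),
    fun i => ⟨w i, isWeightedHomogeneous_X k w i⟩, fun _ => rfl,
    ⟨span_X k _, X_notMem k _ ?_⟩, massey_I2 k⟩
  intro p hp i
  by_contra h
  have := bad_degree _ ((mem_I2_iff k p).mp hp _ h)
  rw [sum_single] at this
  omega

/-! ### The ideal `𝔪²` -/

/-- the explicit cycles for `𝔪²` -/
noncomputable def uu (p : {p : Fin 4 × Finset (Fin 4) // p.2 ≠ ∅}) :
    KosI (MvPolynomial (Fin 4) k ⧸ idealOfVars (Fin 4) k ^ 2) 4 :=
  Ideal.Quotient.mk (idealOfVars (Fin 4) k ^ 2) (X p.1.1) • EB _ 4 p.1.2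

theorem hspan_m2 (z : KosI (MvPolynomial (Fin 4) k ⧸ idealOfVars (Fin 4) k ^ 2) 4)
    (hz0 : ExteriorAlgebra.algebraMapInv z = 0)
    (hz1 : kdI (fun i => Ideal.Quotient.mk (idealOfVars (Fin 4) k ^ 2) (X i)) z = 0) :
    ∃ c : {p : Fin 4 × Finset (Fin 4) // p.2 ≠ ∅} →₀ k, z - c.sum (fun x r =>
      algebraMap k (MvPolynomial (Fin 4) k ⧸ idealOfVars (Fin 4) k ^ 2) r • uu k x) ∈
      LinearMap.range (kdI (fun i => Ideal.Quotient.mk (idealOfVars (Fin 4) k ^ 2) (X i))) := by
  classical
  have hr : ∀ A : Finset (Fin 4), ∃ r : MvPolynomial (Fin 4) k,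
      Ideal.Quotient.mk (idealOfVars (Fin 4) k ^ 2) r = (EB _ 4).repr z A ∧ (A = ∅ → r = 0) := by
    intro A
    by_cases hA : A = ∅
    · refine ⟨0, ?_, fun _ => rfl⟩
      rw [map_zero, hA, coord_empty, hz0]
    · obtain ⟨r, hr⟩ := Ideal.Quotient.mk_surjective (I := idealOfVars (Fin 4) k ^ 2)
        ((EB _ 4).repr z A)
      exact ⟨r, hr, fun h => absurd h hA⟩
  choose r hr hr0 using hr
  have hcyc : ∀ A, coeff 0 (r A) = 0 := by
    intro A
    by_cases hA : A = ∅
    · rw [hr0 A hA, coeff_zero]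
    obtain ⟨a, ha⟩ := Finset.nonempty_iff_ne_empty.mpr hA
    have h1 := kd_coord (fun i => Ideal.Quotient.mk (idealOfVars (Fin 4) k ^ 2) (X i)) z
      (A.erase a)
    rw [hz1, map_zero, Finsupp.zero_apply] at h1
    have h2 : Ideal.Quotient.mk (idealOfVars (Fin 4) k ^ 2) (∑ c, if c ∈ A.erase a then 0 else
        ((eps 4 c (insert c (A.erase a)) : ℤ) : MvPolynomial (Fin 4) k) *
          (X c * r (insert c (A.erase a)))) = 0 := by
      rw [map_sum, h1]
      refine Finset.sum_congr rfl fun c _ => ?_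
      by_cases hc : c ∈ A.erase a
      · rw [if_pos hc, if_pos hc, map_zero]
      · rw [if_neg hc, if_neg hc, map_mul, map_mul, map_intCast, hr, mul_assoc]
    rw [Ideal.Quotient.eq_zero_iff_mem, mem_pow_idealOfVars_iff'] at h2
    have h3 := h2 (Finsupp.single a 1) (by simp)
    rw [coeff_sum, Finset.sum_eq_single a, if_neg (Finset.notMem_erase a A), coeff_intCast_mul,
      coeff_X_mul_ite, if_neg (by simp), tsub_self, Finset.insert_erase ha] at h3
    · have h4 := eps_cast_sq k a A
      calc coeff 0 (r A) = (eps 4 a A : k) * ((eps 4 a A : k) * coeff 0 (r A)) := by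
            rw [← mul_assoc, h4, one_mul]
        _ = 0 := by rw [h3, mul_zero]
    · intro c _ hca
      by_cases hc : c ∈ A.erase a
      · rw [if_pos hc, coeff_zero]
      · rw [if_neg hc, coeff_intCast_mul, coeff_X_mul_ite, if_pos, mul_zero]
        rw [Finsupp.single_apply, if_neg (Ne.symm hca)]
    · intro h; exact absurd (Finset.mem_univ _) h
  have hmem : z - kdI (fun i => Ideal.Quotient.mk (idealOfVars (Fin 4) k ^ 2) (X i)) 0 ∈
      Submodule.span k (Set.range (uu k)) := by
    rw [map_zero, sub_zero, ← (EB _ 4).sum_repr z]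
    refine Submodule.sum_mem _ fun A _ => ?_
    rw [← hr A]
    by_cases hA : A = ∅
    · rw [gen_zero _ _ (by rw [hr0 A hA, map_zero])]; exact Submodule.zero_mem _
    have hqA : Ideal.Quotient.mk (idealOfVars (Fin 4) k ^ 2) (r A) = ∑ β ∈ (r A).support,
        Ideal.Quotient.mk (idealOfVars (Fin 4) k ^ 2) (monomial β (coeff β (r A))) := by
      conv_lhs => rw [(r A).as_sum]
      rw [map_sum]
    rw [hqA, Finset.sum_smul]
    refine Submodule.sum_mem _ fun β hβ => ?_
    have hne := mem_support_iff.mp hβ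
    by_cases hdeg : 2 ≤ β.degree
    · rw [gen_zero _ _ (Ideal.Quotient.eq_zero_iff_mem.mpr
        ((monomial_mem_pow_idealOfVars_iff 2 β hne).mpr hdeg))]
      exact Submodule.zero_mem _
    · have h0 : β ≠ 0 := by rintro rfl; exact hne (hcyc A)
      obtain ⟨i, hi⟩ := Finsupp.ne_iff.mp h0
      simp only [Finsupp.coe_zero, Pi.zero_apply] at hi
      rw [Finsupp.degree_eq_sum] at hdeg
      have hβi : β = Finsupp.single i 1 := by
        ext j
        by_cases hij : j = i
        · subst hij
          have := le_sum β j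
          simp; omega
        · have := add_le_sum β j i hij
          rw [Finsupp.single_apply, if_neg (Ne.symm hij)]; omega
      have h1 : (monomial β (coeff β (r A)) : MvPolynomial (Fin 4) k) =
          coeff β (r A) • X i := by
        rw [X, smul_monomial, smul_eq_mul, mul_one, ← hβi]
      have h2 : Ideal.Quotient.mk (idealOfVars (Fin 4) k ^ 2) (coeff β (r A) • X i) =
          coeff β (r A) • Ideal.Quotient.mk (idealOfVars (Fin 4) k ^ 2) (X i) := rfl
      rw [h1, h2, smul_assoc]
      exact Submodule.smul_mem _ _ (Submodule.subset_span ⟨⟨(i, A), hA⟩, rfl⟩)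
  exact gen_final _ _ _ _ hmem

theorem mk_XX (i j : Fin 4) : Ideal.Quotient.mk (idealOfVars (Fin 4) k ^ 2) (X i) *
    Ideal.Quotient.mk (idealOfVars (Fin 4) k ^ 2) (X j) = 0 := by
  rw [← map_mul]
  exact Ideal.Quotient.eq_zero_iff_mem.mpr (sq_mem k i j)

theorem massey_m2 : Nonempty (TrivialMassey k
    (fun i : Fin 4 => Ideal.Quotient.mk (idealOfVars (Fin 4) k ^ 2) (X i))) :=
  exists_trivialMassey (uu k) (fun p => p.1.2.card)
    (fun p => Finset.card_pos.mpr (Finset.nonempty_iff_ne_empty.mpr p.2))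
    (fun _ => isDeg_coL _ _)
    (fun _ => gen_cycle _ _ _ fun c _ => mk_XX k _ c)
    (fun _ _ => gen_mul _ _ _ _ (mk_XX k _ _)) (hspan_m2 k)

theorem isGolod_m2 (w : Fin 4 → ℕ) : IsGolod w (idealOfVars (Fin 4) k ^ 2) := by
  refine ⟨4, X, fun i => Ideal.Quotient.mk (idealOfVars (Fin 4) k ^ 2) (X i),
    fun i => ⟨w i, isWeightedHomogeneous_X k w i⟩, fun _ => rfl,
    ⟨span_X k _, X_notMem k _ ?_⟩, massey_m2 k⟩
  intro p hp i
  rw [mem_pow_idealOfVars_iff'] at hp
  exact hp _ (by simp)

theorem not_isGolod (w : Fin 4 → ℕ) : ¬ IsGolod w (idealOfVars (Fin 4) k ^ 2 * I2 k) := by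
  rintro ⟨e, b, a, -, -, ⟨hspan, -⟩, ⟨T⟩⟩
  exact not_golod_aux k a hspan T

theorem isHomog_m2 (w : Fin 4 → ℕ) : IsHomog w (idealOfVars (Fin 4) k ^ 2) := by
  classical
  intro p hp d
  rw [mem_pow_idealOfVars_iff'] at hp ⊢
  intro x hx
  rw [coeff_weightedHomogeneousComponent]
  split_ifs
  · exact hp x hx
  · rfl

theorem isHomog_I2 (w : Fin 4 → ℕ) : IsHomog w (I2 k) := by
  classical
  intro p hp d
  rw [mem_I2_iff] at hp ⊢
  intro β hβ
  rw [coeff_weightedHomogeneousComponent] at hβ
  split_ifs at hβ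
  · exact hp β hβ
  · exact absurd rfl hβ

theorem m2_ne_top : idealOfVars (Fin 4) k ^ 2 ≠ ⊤ := by
  intro h
  have := (mem_pow_idealOfVars_iff' 2 (1 : MvPolynomial (Fin 4) k)).mp (by rw [h]; trivial) 0
    (by simp)
  simp at this

theorem I2_le_m2 : I2 k ≤ idealOfVars (Fin 4) k ^ 2 := by
  intro p hp
  rw [mem_pow_idealOfVars_iff]
  intro x hx
  have := bad_degree _ ((mem_I2_iff k p).mp hp x (mem_support_iff.mp hx))
  rw [Finsupp.degree_eq_sum]; omega

end

theorem main (k : Type u) [Field k] (w : Fin 4 → ℕ) :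
    (I1 k ≠ ⊤ ∧ IsHomog w (I1 k) ∧ IsGolod w (I1 k)) ∧
      (I2 k ≠ ⊤ ∧ IsHomog w (I2 k) ∧ IsGolod w (I2 k)) ∧
      I2 k ≤ I1 k ∧ ¬ IsGolod w (I1 k * I2 k) :=
  ⟨⟨m2_ne_top k, isHomog_m2 k w, isGolod_m2 k w⟩,
    ⟨fun h => m2_ne_top k (top_le_iff.mp (h ▸ I2_le_m2 k)), isHomog_I2 k w, isGolod_I2 k w⟩,
    I2_le_m2 k, not_isGolod k w⟩

end Pool.Agent.H8Golod
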